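import Mathlib

/-!
# Total flow time under an energy budget: real analysis

For `α > 1` put `β = α / (α - 1)`, `q = 2 ^ ((α - 1) / α)`. The total flow time of the gadgets as a
function of the subset sum `σ` and the energy `E` is
`G σ E = (A (4 + 3 q) + σ (q - 1)) ^ β * E ^ (1 - β) - σ`, a strictly convex function of `σ`.
-/

set_option autoImplicit false

namespace Pool.Agent.Helper80K.Ft

open Real

/-- the conjugate exponent -/
noncomputable def bet (α : ℝ) : ℝ := α / (α - 1)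

/-- `2 ^ (1 - 1 / α)` -/
noncomputable def qq (α : ℝ) : ℝ := (2 : ℝ) ^ ((α - 1) / α)

/-- `q - 1` -/
noncomputable def dl (α : ℝ) : ℝ := qq α - 1

/-- the critical speed -/
noncomputable def cs (α : ℝ) : ℝ := bet α * dl α

/-- the weighted sum of the works -/
noncomputable def MM (α A σ : ℝ) : ℝ := A * (4 + 3 * qq α) + σ * dl α

/-- the total flow time -/
noncomputable def GG (α A σ E : ℝ) : ℝ := MM α A σ ^ bet α * E ^ (1 - bet α) - σ

variable {α : ℝ}

theorem bet_pos (hα : 1 < α) : 0 < bet α := div_pos (by linarith) (by linarith)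

theorem one_lt_bet (hα : 1 < α) : 1 < bet α := by
  unfold bet
  rw [lt_div_iff₀ (by linarith)]
  linarith

theorem bet_inv (hα : 1 < α) : (α - 1) / α = (bet α)⁻¹ := by
  unfold bet
  rw [inv_div]

theorem exp_pos (hα : 1 < α) : 0 < (α - 1) / α := div_pos (by linarith) (by linarith)

theorem exp_lt_one (hα : 1 < α) : (α - 1) / α < 1 := by
  rw [div_lt_one (by linarith)]
  linarith

theorem one_lt_qq (hα : 1 < α) : 1 < qq α := Real.one_lt_rpow (by norm_num) (exp_pos hα)

theorem qq_lt_two (hα : 1 < α) : qq α < 2 := by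
  have h : qq α < (2 : ℝ) ^ (1 : ℝ) :=
    Real.rpow_lt_rpow_of_exponent_lt (by norm_num) (exp_lt_one hα)
  simpa using h

theorem dl_pos (hα : 1 < α) : 0 < dl α := by
  unfold dl
  linarith [one_lt_qq hα]

theorem dl_lt_one (hα : 1 < α) : dl α < 1 := by
  unfold dl
  linarith [qq_lt_two hα]

theorem qq_le (hα : 1 < α) : qq α ≤ 1 + (α - 1) / α := by
  have h := _root_.rpow_one_add_le_one_add_mul_self (s := 1) (by norm_num) (exp_pos hα).le
    (exp_lt_one hα).le
  have h2 : (1 : ℝ) + 1 = 2 := by norm_num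
  rw [h2, mul_one] at h
  exact h

theorem dl_le (hα : 1 < α) : dl α ≤ (α - 1) / α := by
  unfold dl
  linarith [qq_le hα]

theorem cs_le_one (hα : 1 < α) : cs α ≤ 1 := by
  unfold cs
  have h1 := dl_le hα
  have h2 := bet_pos hα
  calc bet α * dl α ≤ bet α * ((α - 1) / α) := mul_le_mul_of_nonneg_left h1 h2.le
    _ = 1 := by rw [bet_inv hα, mul_inv_cancel₀ h2.ne']

theorem log_two_le_cs (hα : 1 < α) : Real.log 2 ≤ cs α := by
  have h1 : 1 + (α - 1) / α * Real.log 2 ≤ qq α := by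
    unfold qq
    rw [Real.rpow_def_of_pos (by norm_num)]
    have := Real.add_one_le_exp (Real.log 2 * ((α - 1) / α))
    linarith
  have h2 := bet_pos hα
  unfold cs dl
  have h3 : bet α * ((α - 1) / α * Real.log 2) ≤ bet α * (qq α - 1) :=
    mul_le_mul_of_nonneg_left (by linarith) h2.le
  have h4 : bet α * ((α - 1) / α * Real.log 2) = Real.log 2 := by
    rw [← mul_assoc, bet_inv hα, mul_inv_cancel₀ h2.ne', one_mul]
  linarith

theorem cs_ge (hα : 1 < α) : (69 : ℝ) / 100 ≤ cs α := by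
  have h1 := log_two_le_cs hα
  have h2 := Real.log_two_gt_d9
  linarith

theorem cs_pos (hα : 1 < α) : 0 < cs α := by linarith [cs_ge hα]

/-- a quantitative Bernoulli inequality -/
theorem taylor {β : ℝ} (hβ : 1 < β) : ∃ κ : ℝ, 0 < κ ∧ ∀ t : ℝ, |t| ≤ 1 / 2 →
    1 + β * t + κ * t ^ 2 ≤ (1 + t) ^ β := by
  obtain ⟨m, hm, hm'⟩ : ∃ m : ℝ, 0 < m ∧ ∀ t : ℝ, |t| ≤ 1 / 2 → m ≤ (1 + t) ^ (β - 2) := by
    refine ⟨min ((1 / 2 : ℝ) ^ (β - 2)) ((3 / 2 : ℝ) ^ (β - 2)), by positivity, fun t ht => ?_⟩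
    obtain ⟨h1, h2⟩ := abs_le.1 ht
    rcases le_total 0 (β - 2) with h | h
    · exact (min_le_left _ _).trans (Real.rpow_le_rpow (by norm_num) (by linarith) h)
    · exact (min_le_right _ _).trans
        (Real.rpow_le_rpow_of_nonpos (by linarith) (by linarith) h)
  set κ : ℝ := β * (β - 1) * m / 2 with hκ
  have hκ0 : 0 < κ := by
    have : 0 < β - 1 := by linarith
    positivity
  refine ⟨κ, hκ0, fun t ht => ?_⟩
  -- the function `φ t = (1 + t) ^ β - κ t ^ 2` is convex
  set D : Set ℝ := Set.Icc (-(1 / 2) : ℝ) (1 / 2) with hD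
  have hconv : ConvexOn ℝ D (fun t : ℝ => (1 + t) ^ β - κ * t ^ 2) := by
    have hd1 : ∀ x : ℝ, 0 < 1 + x → HasDerivAt (fun t : ℝ => (1 + t) ^ β - κ * t ^ 2)
        (β * (1 + x) ^ (β - 1) - κ * (2 * x)) x := by
      intro x hx
      have h1 : HasDerivAt (fun t : ℝ => 1 + t) 1 x := by simpa using (hasDerivAt_id x).const_add 1
      have h2 := h1.rpow_const (p := β) (Or.inl hx.ne')
      have h3 : HasDerivAt (fun t : ℝ => κ * t ^ 2) (κ * (2 * x)) x := by
        have := (hasDerivAt_pow 2 x).const_mul κ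
        simpa using this
      have h4 := h2.sub h3
      refine h4.congr_deriv ?_
      ring
    have hd2 : ∀ x : ℝ, 0 < 1 + x → HasDerivAt
        (fun x : ℝ => β * (1 + x) ^ (β - 1) - κ * (2 * x))
        (β * (β - 1) * (1 + x) ^ (β - 2) - 2 * κ) x := by
      intro x hx
      have h1 : HasDerivAt (fun t : ℝ => 1 + t) 1 x := by simpa using (hasDerivAt_id x).const_add 1
      have h2 := (h1.rpow_const (p := β - 1) (Or.inl hx.ne')).const_mul β
      have h3 : HasDerivAt (fun t : ℝ => κ * (2 * t)) (2 * κ) x := by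
        have := ((hasDerivAt_id x).const_mul 2).const_mul κ
        simp only [id_eq, mul_one] at this
        rw [mul_comm 2 κ]
        exact this
      have h4 := h2.sub h3
      refine h4.congr_deriv ?_
      have : β - 1 - 1 = β - 2 := by ring
      rw [this]
      ring
    have hint : interior D ⊆ {x : ℝ | 0 < 1 + x} := by
      intro x hx
      have := interior_subset hx
      simp only [hD, Set.mem_Icc] at this
      simp only [Set.mem_ofPred_eq]
      linarith [this.1]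
    have hopen : IsOpen {x : ℝ | 0 < 1 + x} := isOpen_lt continuous_const (by fun_prop)
    refine convexOn_of_deriv2_nonneg (convex_Icc _ _) ?_ ?_ ?_ ?_
    · intro x hx
      have : 0 < 1 + x := by
        simp only [hD, Set.mem_Icc] at hx
        linarith [hx.1]
      exact (hd1 x this).continuousAt.continuousWithinAt
    · intro x hx
      exact (hd1 x (hint hx)).differentiableAt.differentiableWithinAt
    · intro x hx
      have h1 : deriv (fun t : ℝ => (1 + t) ^ β - κ * t ^ 2) =ᶠ[nhds x]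
          (fun x : ℝ => β * (1 + x) ^ (β - 1) - κ * (2 * x)) := by
        filter_upwards [hopen.mem_nhds (hint hx)] with y hy
        exact (hd1 y hy).deriv
      exact ((hd2 x (hint hx)).differentiableAt.congr_of_eventuallyEq h1).differentiableWithinAt
    · intro x hx
      have h1 : deriv (fun t : ℝ => (1 + t) ^ β - κ * t ^ 2) =ᶠ[nhds x]
          (fun x : ℝ => β * (1 + x) ^ (β - 1) - κ * (2 * x)) := by
        filter_upwards [hopen.mem_nhds (hint hx)] with y hy
        exact (hd1 y hy).deriv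
      have h2 : deriv^[2] (fun t : ℝ => (1 + t) ^ β - κ * t ^ 2) x =
          β * (β - 1) * (1 + x) ^ (β - 2) - 2 * κ := by
        change deriv (deriv (fun t : ℝ => (1 + t) ^ β - κ * t ^ 2)) x = _
        rw [h1.deriv_eq]
        exact (hd2 x (hint hx)).deriv
      rw [h2]
      have h3 : m ≤ (1 + x) ^ (β - 2) := by
        apply hm'
        have := interior_subset hx
        simp only [hD, Set.mem_Icc] at this
        exact abs_le.2 this
      have h4 : 0 < β * (β - 1) := mul_pos (by linarith) (by linarith)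
      have h5 := mul_le_mul_of_nonneg_left h3 h4.le
      rw [hκ]
      linarith
  -- tangent line at `0`
  have h0 : (0 : ℝ) ∈ D := by simp [hD]
  have hder : HasDerivAt (fun t : ℝ => (1 + t) ^ β - κ * t ^ 2) β 0 := by
    have h1 : HasDerivAt (fun t : ℝ => 1 + t) 1 0 := by simpa using (hasDerivAt_id (0:ℝ)).const_add 1
    have h2 := h1.rpow_const (p := β) (Or.inl (by norm_num))
    have h3 : HasDerivAt (fun t : ℝ => κ * t ^ 2) (κ * (2 * 0)) 0 := by
      have := (hasDerivAt_pow 2 (0:ℝ)).const_mul κ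
      simpa using this
    have h4 := h2.sub h3
    refine h4.congr_deriv ?_
    simp
  have htD : t ∈ D := by
    simp only [hD, Set.mem_Icc]
    exact abs_le.1 ht
  rcases lt_trichotomy t 0 with h | h | h
  · have h1 := hconv.slope_le_of_hasDerivAt htD h0 h hder
    rw [slope_def_field] at h1
    have h2 : (0 : ℝ) - t > 0 := by linarith
    rw [div_le_iff₀ h2] at h1
    simp only [add_zero, one_rpow, ne_eq, OfNat.ofNat_ne_zero, not_false_eq_true, zero_pow,
      mul_zero, sub_zero] at h1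
    linarith
  · subst h
    simp
  · have h1 := hconv.le_slope_of_hasDerivAt h0 htD h hder
    rw [slope_def_field] at h1
    have h2 : t - 0 > 0 := by linarith
    rw [le_div_iff₀ h2] at h1
    simp only [add_zero, one_rpow, ne_eq, OfNat.ofNat_ne_zero, not_false_eq_true, zero_pow,
      mul_zero, sub_zero] at h1
    linarith

theorem MM_add (α A σ T : ℝ) : MM α A σ = MM α A T + (σ - T) * dl α := by
  unfold MM
  ring

theorem MM_pos (hα : 1 < α) {A σ : ℝ} (hA : 0 < A) (hσ : 0 ≤ σ) : 0 < MM α A σ := by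
  unfold MM
  have h1 := one_lt_qq hα
  have h2 := dl_pos hα
  positivity

theorem MM_ge (hα : 1 < α) {A σ : ℝ} (hσ : 0 ≤ σ) :
    A * (4 + 3 * qq α) ≤ MM α A σ := by
  unfold MM
  have h2 := dl_pos hα
  have : 0 ≤ σ * dl α := by positivity
  linarith

theorem MM_le (hα : 1 < α) {A σ : ℝ} (hσ : σ ≤ A) :
    MM α A σ ≤ A * (3 + 4 * qq α) := by
  unfold MM
  have h2 := dl_pos hα
  have : σ * dl α ≤ A * dl α := mul_le_mul_of_nonneg_right hσ h2.le
  unfold dl at this
  unfold dl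
  linarith

/-- `G` in terms of the speed `c`. -/
theorem GG_eq (hα : 1 < α) {A σ T c : ℝ} (hA : 0 < A) (hσ : 0 ≤ σ) (hT : 0 ≤ T) (hc : 0 < c) :
    GG α A σ (MM α A T * c ^ (α - 1)) =
      MM α A T / c * (1 + (σ - T) * dl α / MM α A T) ^ bet α - σ := by
  have hM := MM_pos hα hA hT
  have hMσ := MM_pos hα hA hσ
  have hα1 : α - 1 ≠ 0 := by linarith
  unfold GG
  have e1 : (1 + (σ - T) * dl α / MM α A T) = MM α A σ / MM α A T := by
    rw [MM_add α A σ T]
    field_simp
  rw [e1, Real.mul_rpow hM.le (Real.rpow_nonneg hc.le _), ← Real.rpow_mul hc.le,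
    Real.div_rpow hMσ.le hM.le]
  have e2 : (α - 1) * (1 - bet α) = -1 := by
    unfold bet
    field_simp
    ring
  rw [e2, Real.rpow_neg_one, Real.rpow_sub hM, Real.rpow_one]
  have h3 : MM α A T ^ bet α ≠ 0 := (Real.rpow_pos_of_pos hM _).ne'
  field_simp

theorem GG_diff (hα : 1 < α) {κ : ℝ} (hκ : ∀ t : ℝ, |t| ≤ 1 / 2 →
    1 + bet α * t + κ * t ^ 2 ≤ (1 + t) ^ bet α) {A σ T c : ℝ} (hA : 0 < A) (hσ : 0 ≤ σ)
    (hσA : σ ≤ A) (hT : 0 ≤ T) (hTA : T ≤ A) (hc : 0 < c) :
    ((σ - T) * (cs α - c) + κ * (σ - T) ^ 2 * dl α ^ 2 / MM α A T) / c ≤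
      GG α A σ (MM α A T * c ^ (α - 1)) - GG α A T (MM α A T * c ^ (α - 1)) := by
  have hM := MM_pos hα hA hT
  have hΔ := dl_pos hα
  have hΔ1 := dl_lt_one hα
  rw [GG_eq hα hA hσ hT hc, GG_eq hα hA hT hT hc]
  have h1 : |(σ - T) * dl α / MM α A T| ≤ 1 / 2 := by
    rw [abs_div, abs_mul, abs_of_pos hΔ, abs_of_pos hM, div_le_iff₀ hM]
    have h2 : |σ - T| ≤ A := abs_le.2 ⟨by linarith, by linarith⟩
    have h3 : A * (4 + 3 * qq α) ≤ MM α A T := MM_ge hα hT
    have h4 := one_lt_qq hα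
    have h5 : |σ - T| * dl α ≤ A * 1 := mul_le_mul h2 hΔ1.le hΔ.le hA.le
    nlinarith
  have h2 := hκ _ h1
  have h3 : (0 : ℝ) < MM α A T / c := div_pos hM hc
  have h4 := mul_le_mul_of_nonneg_left h2 h3.le
  have h5 : MM α A T / c * (1 + bet α * ((σ - T) * dl α / MM α A T) +
      κ * ((σ - T) * dl α / MM α A T) ^ 2) = MM α A T / c + (σ - T) * cs α / c +
      κ * (σ - T) ^ 2 * dl α ^ 2 / MM α A T / c := by
    unfold cs
    field_simp
  have h6 : MM α A T / c * (1 + (T - T) * dl α / MM α A T) ^ bet α = MM α A T / c := by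
    simp
  rw [h6]
  have h7 : ((σ - T) * (cs α - c) + κ * (σ - T) ^ 2 * dl α ^ 2 / MM α A T) / c =
      (σ - T) * cs α / c + κ * (σ - T) ^ 2 * dl α ^ 2 / MM α A T / c - (σ - T) := by
    field_simp
    ring
  rw [h7]
  linarith

theorem pow_le_lin (m : ℕ) {s : ℝ} (h0 : 0 ≤ s) (h1 : s ≤ 1) :
    (1 + s) ^ m ≤ 1 + (2 ^ m - 1) * s := by
  induction m with
  | zero => simp
  | succ m ih =>
    have h2 : (1 : ℝ) ≤ 2 ^ m := one_le_pow₀ (by norm_num)
    calc (1 + s) ^ (m + 1) = (1 + s) ^ m * (1 + s) := pow_succ _ _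
      _ ≤ (1 + (2 ^ m - 1) * s) * (1 + s) := mul_le_mul_of_nonneg_right ih (by linarith)
      _ ≤ 1 + (2 ^ (m + 1) - 1) * s := by
        rw [pow_succ]
        nlinarith [mul_nonneg (sub_nonneg.2 h2) h0, mul_nonneg h0 (sub_nonneg.2 h1),
          mul_nonneg (mul_nonneg (sub_nonneg.2 h2) h0) (sub_nonneg.2 h1)]

theorem rpow_lip {γ : ℝ} (hγ : 0 < γ) {m : ℕ} (hm : γ ≤ m) {s : ℝ} (hs : |s| ≤ 1 / 2) :
    |(1 + s) ^ γ - 1| ≤ 2 ^ m * |s| := by
  obtain ⟨h1, h2⟩ := abs_le.1 hs
  rcases le_total 0 s with h | h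
  · have h3 : 1 ≤ (1 + s) ^ γ := Real.one_le_rpow (by linarith) hγ.le
    have h4 : (1 + s) ^ γ ≤ (1 + s) ^ (m : ℝ) :=
      Real.rpow_le_rpow_of_exponent_le (by linarith) hm
    rw [Real.rpow_natCast] at h4
    have h5 := pow_le_lin m h (by linarith : s ≤ 1)
    rw [abs_of_nonneg (by linarith), abs_of_nonneg h]
    nlinarith
  · have h3 : (1 + s) ^ γ ≤ 1 := Real.rpow_le_one (by linarith) (by linarith) hγ.le
    have h4 : (1 + s) ^ (m : ℝ) ≤ (1 + s) ^ γ :=
      Real.rpow_le_rpow_of_exponent_ge (by linarith) (by linarith) hm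
    rw [Real.rpow_natCast] at h4
    have h5 : 1 + (m : ℝ) * s ≤ (1 + s) ^ m := one_add_mul_le_pow (by linarith) m
    have h6 : (m : ℝ) ≤ 2 ^ m := by
      exact_mod_cast (Nat.lt_two_pow_self (n := m)).le
    rw [abs_of_nonpos (by linarith), abs_of_nonpos h]
    nlinarith

theorem exists_nat_between {x y : ℝ} (hx : 0 ≤ x) {D : ℕ} (h : 1 ≤ D * (y - x)) :
    ∃ a : ℕ, x ≤ (a : ℝ) / D ∧ (a : ℝ) / D < y := by
  have hD : (0 : ℝ) < D := by
    rcases Nat.eq_zero_or_pos D with h0 | h0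
    · subst h0
      simp at h
      linarith
    · exact_mod_cast h0
  refine ⟨⌈x * D⌉₊, ?_, ?_⟩
  · rw [le_div_iff₀ hD]
    exact Nat.le_ceil _
  · rw [div_lt_iff₀ hD]
    have := Nat.ceil_lt_add_one (a := x * D) (by positivity)
    nlinarith

theorem low_lt (hα : 1 < α) : (3 + 4 * qq α) * (7 / 64 : ℝ) ^ (α - 1) <
    (4 + 3 * qq α) * cs α ^ (α - 1) := by
  have hα1 : 0 < α - 1 := by linarith
  have hq := one_lt_qq hα
  have hΔ := dl_le hα
  have hc := cs_ge hα
  have h1 : 1 + (α - 1) ≤ (cs α / (7 / 64)) ^ (α - 1) := by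
    have h2 : (1 : ℝ) ≤ Real.log (cs α / (7 / 64)) := by
      rw [Real.le_log_iff_exp_le (by positivity [cs_pos hα])]
      have := Real.exp_one_lt_d9
      rw [le_div_iff₀ (by norm_num)]
      linarith
    rw [Real.rpow_def_of_pos (div_pos (cs_pos hα) (by norm_num))]
    have h3 := Real.add_one_le_exp (Real.log (cs α / (7 / 64)) * (α - 1))
    nlinarith
  rw [Real.div_rpow (cs_pos hα).le (by norm_num), le_div_iff₀ (by positivity)] at h1
  have h4 : 3 + 4 * qq α < (4 + 3 * qq α) * (1 + (α - 1)) := by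
    have h5 : qq α - 1 ≤ (α - 1) / α := by
      have := hΔ
      unfold dl at this
      exact this
    have h6 : (α - 1) / α ≤ α - 1 := div_le_self hα1.le hα.le
    nlinarith
  calc (3 + 4 * qq α) * (7 / 64 : ℝ) ^ (α - 1)
      < (4 + 3 * qq α) * (1 + (α - 1)) * (7 / 64 : ℝ) ^ (α - 1) :=
        mul_lt_mul_of_pos_right h4 (by positivity)
    _ = (4 + 3 * qq α) * ((1 + (α - 1)) * (7 / 64 : ℝ) ^ (α - 1)) := by ring
    _ ≤ _ := mul_le_mul_of_nonneg_left h1 (by linarith)

theorem high_lt (hα : 1 < α) : (3 + 4 * qq α) * cs α ^ (α - 1) <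
    (4 + 3 * qq α) * (2 : ℝ) ^ (α - 1) := by
  have hα1 : 0 < α - 1 := by linarith
  have hq := one_lt_qq hα
  have hΔ := dl_le hα
  have hc := cs_le_one hα
  have hc0 := cs_pos hα
  have h1 : 1 + (α - 1) / 2 ≤ (2 : ℝ) ^ (α - 1) := by
    rw [Real.rpow_def_of_pos (by norm_num)]
    have h3 := Real.add_one_le_exp (Real.log 2 * (α - 1))
    have h4 := Real.log_two_gt_d9
    nlinarith
  have h2 : cs α ^ (α - 1) ≤ 1 := Real.rpow_le_one hc0.le hc hα1.le
  have h4 : 3 + 4 * qq α < (4 + 3 * qq α) * (1 + (α - 1) / 2) := by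
    have h5 : qq α - 1 ≤ (α - 1) / α := by
      have := hΔ
      unfold dl at this
      exact this
    have h6 : (α - 1) / α ≤ α - 1 := div_le_self hα1.le hα.le
    nlinarith
  calc (3 + 4 * qq α) * cs α ^ (α - 1) ≤ (3 + 4 * qq α) * 1 :=
        mul_le_mul_of_nonneg_left h2 (by linarith)
    _ < (4 + 3 * qq α) * (1 + (α - 1) / 2) := by linarith
    _ ≤ _ := mul_le_mul_of_nonneg_left h1 (by linarith)

/-- **The constants of the binary search.** -/
theorem main_const (hα : 1 < α) : ∃ D a0 b0 k1 : ℕ, 0 < D ∧ 0 < a0 ∧ a0 ≤ b0 ∧ 0 < k1 ∧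
    ∀ A T : ℕ, 0 < A → T ≤ A → ∃ Es : ℝ,
      (A * a0 : ℝ) / D ≤ Es ∧ Es ≤ (A * b0 : ℝ) / D ∧
      ∀ E : ℝ, (A * a0 : ℝ) / D ≤ E → E ≤ (A * b0 : ℝ) / D →
        (∃ c : ℝ, 7 / 64 ≤ c ∧ c ≤ 2 ∧ E = MM α A T * c ^ (α - 1)) ∧
        ∀ σ : ℕ, σ ≤ A → σ ≠ T →
          ((Es ≤ E ∧ σ < T) ∨ (E ≤ Es ∧ T < σ) ∨ |E - Es| ≤ 1 / D) →
          GG α A T E + 1 / (k1 * A) < GG α A σ E := by
  have hα1 : 0 < α - 1 := by linarith
  have hq := one_lt_qq hα
  have hq2 := qq_lt_two hα
  have hΔ := dl_pos hα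
  have hΔ1 := dl_lt_one hα
  have hc1 := cs_le_one hα
  have hc0 := cs_pos hα
  obtain ⟨κ, hκ0, hκ⟩ := taylor (one_lt_bet hα)
  have hlow := low_lt hα
  have hhigh := high_lt hα
  set x1 := (3 + 4 * qq α) * (7 / 64 : ℝ) ^ (α - 1) with hx1
  set x2 := (4 + 3 * qq α) * cs α ^ (α - 1) with hx2
  set y1 := (3 + 4 * qq α) * cs α ^ (α - 1) with hy1
  set y2 := (4 + 3 * qq α) * (2 : ℝ) ^ (α - 1) with hy2
  set γ : ℝ := (α - 1)⁻¹ with hγ
  have hγ0 : 0 < γ := inv_pos.2 hα1
  obtain ⟨m, hm⟩ := exists_nat_ge γ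
  have hcp : 0 < cs α ^ (α - 1) := Real.rpow_pos_of_pos hc0 _
  obtain ⟨D, hD⟩ := exists_nat_ge (1 / (x2 - x1) + 1 / (y2 - y1) +
    2 * 2 ^ m / (cs α ^ (α - 1) * κ * dl α ^ 2) + 2 / (cs α ^ (α - 1)) + 1)
  have t1 : 0 < 1 / (x2 - x1) := by
    have : 0 < x2 - x1 := by linarith
    positivity
  have t2 : 0 < 1 / (y2 - y1) := by
    have : 0 < y2 - y1 := by linarith
    positivity
  have t3 : 0 < 2 * 2 ^ m / (cs α ^ (α - 1) * κ * dl α ^ 2) := by positivity
  have t4 : 0 < 2 / (cs α ^ (α - 1)) := by positivity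
  have hD0 : (0 : ℝ) < D := by linarith
  have hD1 : 1 ≤ D * (x2 - x1) := by
    have h : 1 / (x2 - x1) ≤ D := by linarith
    rwa [div_le_iff₀ (by linarith)] at h
  have hD2 : 1 ≤ D * (y2 - y1) := by
    have h : 1 / (y2 - y1) ≤ D := by linarith
    rwa [div_le_iff₀ (by linarith)] at h
  have hD3 : 2 * 2 ^ m ≤ D * (cs α ^ (α - 1) * κ * dl α ^ 2) := by
    have h : 2 * 2 ^ m / (cs α ^ (α - 1) * κ * dl α ^ 2) ≤ D := by linarith
    rwa [div_le_iff₀ (by positivity)] at h
  have hD4 : 2 ≤ D * (cs α ^ (α - 1)) := by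
    have h : 2 / (cs α ^ (α - 1)) ≤ D := by linarith
    rwa [div_le_iff₀ (by positivity)] at h
  have hx10 : 0 < x1 := by positivity
  obtain ⟨a0, ha1, ha2⟩ := exists_nat_between hx10.le hD1
  obtain ⟨b0, hb1, hb2⟩ := exists_nat_between (by positivity : (0:ℝ) ≤ y1) hD2
  obtain ⟨k1, hk1⟩ := exists_nat_gt (44 / (κ * dl α ^ 2))
  have hk10 : (0 : ℝ) < k1 := lt_trans (by positivity) hk1
  have ha0 : 0 < a0 := by
    rcases Nat.eq_zero_or_pos a0 with h | h
    · subst h
      simp at ha1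
      linarith
    · exact h
  have hab : a0 ≤ b0 := by
    have hxy : x2 ≤ y1 := by
      rw [hx2, hy1]
      exact mul_le_mul_of_nonneg_right (by linarith) hcp.le
    have h : (a0 : ℝ) / D ≤ (b0 : ℝ) / D := by linarith
    rw [div_le_div_iff_of_pos_right hD0] at h
    exact_mod_cast h
  refine ⟨D, a0, b0, k1, by exact_mod_cast hD0, ha0, hab, by exact_mod_cast hk10,
    fun A T hA hT => ?_⟩
  have hA' : (0 : ℝ) < A := by exact_mod_cast hA
  have hA1 : (1 : ℝ) ≤ A := by exact_mod_cast hA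
  have hT0 : (0 : ℝ) ≤ T := Nat.cast_nonneg _
  have hTA : (T : ℝ) ≤ A := by exact_mod_cast hT
  set M := MM α A T with hM
  have hM0 : 0 < M := MM_pos hα hA' hT0
  have hM1 : A * (4 + 3 * qq α) ≤ M := MM_ge hα hT0
  have hM2 : M ≤ A * (3 + 4 * qq α) := MM_le hα hTA
  have hM3 : M ≤ 11 * A := by nlinarith
  have hM4 : 1 ≤ M := by nlinarith
  refine ⟨M * cs α ^ (α - 1), ?_, ?_, ?_⟩
  · calc (A * a0 : ℝ) / D = A * (a0 / D) := by ring
      _ ≤ A * x2 := mul_le_mul_of_nonneg_left ha2.le hA'.le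
      _ = A * (4 + 3 * qq α) * cs α ^ (α - 1) := by rw [hx2]; ring
      _ ≤ _ := mul_le_mul_of_nonneg_right hM1 hcp.le
  · calc M * cs α ^ (α - 1) ≤ A * (3 + 4 * qq α) * cs α ^ (α - 1) :=
          mul_le_mul_of_nonneg_right hM2 hcp.le
      _ = A * y1 := by rw [hy1]; ring
      _ ≤ A * (b0 / D) := mul_le_mul_of_nonneg_left hb1 hA'.le
      _ = _ := by ring
  · intro E hE1 hE2
    have hE0 : 0 < E := lt_of_lt_of_le (by positivity) hE1
    set c := (E / M) ^ γ with hc
    have hEM : 0 < E / M := div_pos hE0 hM0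
    have hcpos : 0 < c := Real.rpow_pos_of_pos hEM _
    have hcpow : c ^ (α - 1) = E / M := by
      rw [hc, ← Real.rpow_mul hEM.le, hγ, inv_mul_cancel₀ hα1.ne', Real.rpow_one]
    have hEc : E = M * c ^ (α - 1) := by
      rw [hcpow]
      field_simp
    have hcl : 7 / 64 ≤ c := by
      rw [← Real.rpow_le_rpow_iff (by norm_num) hcpos.le hα1, hcpow, le_div_iff₀ hM0]
      calc (7 / 64 : ℝ) ^ (α - 1) * M ≤ (7 / 64 : ℝ) ^ (α - 1) * (A * (3 + 4 * qq α)) :=
            mul_le_mul_of_nonneg_left hM2 (by positivity)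
        _ = A * x1 := by rw [hx1]; ring
        _ ≤ A * (a0 / D) := mul_le_mul_of_nonneg_left ha1 hA'.le
        _ = (A * a0 : ℝ) / D := by ring
        _ ≤ E := hE1
    have hcu : c ≤ 2 := by
      rw [← Real.rpow_le_rpow_iff hcpos.le (by norm_num) hα1, hcpow, div_le_iff₀ hM0]
      calc E ≤ (A * b0 : ℝ) / D := hE2
        _ = A * (b0 / D) := by ring
        _ ≤ A * y2 := mul_le_mul_of_nonneg_left hb2.le hA'.le
        _ = (2 : ℝ) ^ (α - 1) * (A * (4 + 3 * qq α)) := by rw [hy2]; ring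
        _ ≤ _ := mul_le_mul_of_nonneg_left hM1 (by positivity)
    refine ⟨⟨c, hcl, hcu, hEc⟩, fun σ hσA hσT hcase => ?_⟩
    have hσ0 : (0 : ℝ) ≤ σ := Nat.cast_nonneg _
    have hσA' : (σ : ℝ) ≤ A := by exact_mod_cast hσA
    have hdiff := GG_diff hα hκ hA' hσ0 hσA' hT0 hTA hcpos
    rw [← hM, ← hEc] at hdiff
    have hu1 : 1 ≤ |(σ : ℝ) - T| := by
      rcases lt_or_gt_of_ne hσT with h | h
      · have : (σ : ℝ) + 1 ≤ T := by exact_mod_cast h
        rw [abs_of_neg (by linarith)]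
        linarith
      · have : (T : ℝ) + 1 ≤ σ := by exact_mod_cast h
        rw [abs_of_pos (by linarith)]
        linarith
    have hu2 : |(σ : ℝ) - T| ≤ ((σ : ℝ) - T) ^ 2 := by
      rw [← sq_abs]
      exact le_self_pow₀ hu1 two_ne_zero
    have hu3 : 1 ≤ ((σ : ℝ) - T) ^ 2 := hu1.trans hu2
    -- in all cases the numerator is at least `κ Δ² / (2 M)`
    have hnum : κ * dl α ^ 2 / (2 * M) ≤
        ((σ : ℝ) - T) * (cs α - c) + κ * ((σ : ℝ) - T) ^ 2 * dl α ^ 2 / M := by
      have hP : 0 < κ * dl α ^ 2 / M := by positivity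
      have e1 : κ * ((σ : ℝ) - T) ^ 2 * dl α ^ 2 / M =
          ((σ : ℝ) - T) ^ 2 * (κ * dl α ^ 2 / M) := by ring
      have e2 : κ * dl α ^ 2 / (2 * M) = (κ * dl α ^ 2 / M) / 2 := by
        field_simp
      rw [e1, e2]
      have hP2 : κ * dl α ^ 2 / M ≤ ((σ : ℝ) - T) ^ 2 * (κ * dl α ^ 2 / M) :=
        le_mul_of_one_le_left hP.le hu3
      rcases hcase with ⟨h1, h2⟩ | ⟨h1, h2⟩ | h1
      · have h3 : cs α ≤ c := by
          rw [← Real.rpow_le_rpow_iff hc0.le hcpos.le hα1, hcpow, le_div_iff₀ hM0]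
          linarith
        have h4 : (σ : ℝ) - T ≤ 0 := by
          have : (σ : ℝ) < T := by exact_mod_cast h2
          linarith
        have h5 : 0 ≤ ((σ : ℝ) - T) * (cs α - c) := mul_nonneg_of_nonpos_of_nonpos h4 (by linarith)
        linarith
      · have h3 : c ≤ cs α := by
          rw [← Real.rpow_le_rpow_iff hcpos.le hc0.le hα1, hcpow, div_le_iff₀ hM0]
          linarith
        have h4 : 0 ≤ (σ : ℝ) - T := by
          have : (T : ℝ) < σ := by exact_mod_cast h2
          linarith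
        have h5 : 0 ≤ ((σ : ℝ) - T) * (cs α - c) := mul_nonneg h4 (by linarith)
        linarith
      · -- near the critical energy
        set Es := M * cs α ^ (α - 1) with hEs
        have hEs0 : 0 < Es := by positivity
        set s := (E - Es) / Es with hs
        have hs1 : |s| ≤ 1 / (D * Es) := by
          rw [hs, abs_div, abs_of_pos hEs0, div_le_div_iff₀ hEs0 (by positivity)]
          calc |E - Es| * (D * Es) ≤ 1 / D * (D * Es) :=
                mul_le_mul_of_nonneg_right h1 (by positivity)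
            _ = 1 * Es := by field_simp
        have hDEs : 2 ≤ D * Es := by
          have : (D : ℝ) * Es = M * (D * cs α ^ (α - 1)) := by rw [hEs]; ring
          rw [this]
          have h17 : 1 * 2 ≤ M * (D * cs α ^ (α - 1)) := mul_le_mul hM4 hD4 (by norm_num) hM0.le
          linarith
        have hs2 : |s| ≤ 1 / 2 := hs1.trans (one_div_le_one_div_of_le (by norm_num) hDEs)
        have hcc : c = cs α * (1 + s) ^ γ := by
          have e3 : E / M = cs α ^ (α - 1) * (1 + s) := by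
            rw [hs, hEs]
            field_simp
            ring
          have e4 : 0 ≤ 1 + s := by
            have := (abs_le.1 hs2).1
            linarith
          rw [hc, e3, Real.mul_rpow hcp.le e4, ← Real.rpow_mul hc0.le, hγ,
            mul_inv_cancel₀ hα1.ne', Real.rpow_one]
        have hlip := rpow_lip hγ0 hm hs2
        have hclose : |cs α - c| ≤ κ * dl α ^ 2 / M / 2 := by
          have e5 : |cs α - c| = cs α * |(1 + s) ^ γ - 1| := by
            rw [hcc, abs_sub_comm, ← abs_of_pos hc0, ← abs_mul, abs_of_pos hc0]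
            congr 1
            ring
          rw [e5]
          calc cs α * |(1 + s) ^ γ - 1| ≤ 1 * (2 ^ m * |s|) :=
                mul_le_mul hc1 hlip (abs_nonneg _) zero_le_one
            _ ≤ 2 ^ m * (1 / (D * Es)) := by
                rw [one_mul]
                exact mul_le_mul_of_nonneg_left hs1 (by positivity)
            _ ≤ κ * dl α ^ 2 / M / 2 := by
                rw [mul_one_div, div_div, div_le_div_iff₀ (by positivity) (by positivity)]
                have : κ * dl α ^ 2 * (D * Es) = M * (D * (cs α ^ (α - 1) * κ * dl α ^ 2)) := by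
                  rw [hEs]; ring
                rw [this]
                have h15 : 2 * 2 ^ m * M ≤ D * (cs α ^ (α - 1) * κ * dl α ^ 2) * M :=
                  mul_le_mul_of_nonneg_right hD3 hM0.le
                linarith
        have h6 : -(|(σ : ℝ) - T| * |cs α - c|) ≤ ((σ : ℝ) - T) * (cs α - c) := by
          rw [← abs_mul]
          exact neg_abs_le _
        have h7 : |(σ : ℝ) - T| * |cs α - c| ≤ ((σ : ℝ) - T) ^ 2 * (κ * dl α ^ 2 / M / 2) :=
          mul_le_mul hu2 hclose (abs_nonneg _) (by positivity)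
        have h16 : ((σ : ℝ) - T) ^ 2 * (κ * dl α ^ 2 / M / 2) =
            ((σ : ℝ) - T) ^ 2 * (κ * dl α ^ 2 / M) / 2 := by ring
        rw [h16] at h7
        linarith
    have h8 : κ * dl α ^ 2 / (2 * M) / c ≤ GG α A σ E - GG α A T E :=
      (div_le_div_of_nonneg_right hnum hcpos.le).trans hdiff
    have h9 : 1 / (k1 * A : ℝ) < κ * dl α ^ 2 / (2 * M) / c := by
      rw [div_div, div_lt_div_iff₀ (by positivity) (by positivity), one_mul]
      have h10 : 44 < k1 * (κ * dl α ^ 2) := by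
        rwa [div_lt_iff₀ (by positivity)] at hk1
      have h11 : 2 * M * c ≤ 44 * A := by
        have h12 : M * c ≤ 11 * A * 2 := mul_le_mul hM3 hcu hcpos.le (by positivity)
        linarith
      have h13 : 44 * (A : ℝ) < k1 * (κ * dl α ^ 2) * A := mul_lt_mul_of_pos_right h10 hA'
      have h14 : κ * dl α ^ 2 * (k1 * A) = k1 * (κ * dl α ^ 2) * A := by ring
      rw [h14]
      linarith
    linarith

end Pool.Agent.Helper80K.Ft
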