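import Pool.Agent.Helper80K.Ft.Upper
import Pool.Agent.ER.Rat
import Pool.Agent.H642R2.TMSim
import Pool.Agent.H671R2.SubsetSum
import Pool.Agent.H671R2.PolyAuto

/-!
# The computations of the binary search are in polynomial time
-/

namespace Pool.Agent.NPC

namespace Poly

variable {α : Type} [TEnc α]

theorem ratNum {f : α → ℚ} (hf : Poly f) : Poly (fun a => (f a).num) :=
  fst (α := α) (β := ℤ) (γ := ℕ) (f := fun a => ((f a).num, (f a).den)) hf

theorem ratDen {f : α → ℚ} (hf : Poly f) : Poly (fun a => (f a).den) :=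
  snd (α := α) (β := ℤ) (γ := ℕ) (f := fun a => ((f a).num, (f a).den)) hf

theorem intAbs {f : α → ℤ} (hf : Poly f) : Poly (fun a => (f a).natAbs) :=
  snd (α := α) (β := Bool) (γ := ℕ) (f := fun a => (decide ((f a) < 0), (f a).natAbs)) hf

theorem natCast_rat {f : α → ℕ} (hf : Poly f) : Poly (fun a => ((f a : ℕ) : ℚ)) :=
  Poly.of_toT ((Poly.toT' (Poly.pair hf.natCast_int (Poly.const 1))).congr fun a => by
    change toT (((f a : ℕ) : ℤ), 1) = toT ((((f a : ℕ) : ℚ)).num, (((f a : ℕ) : ℚ)).den)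
    simp)

theorem rat_div_num (m n : ℕ) (hn : 0 < n) :
    ((m : ℚ) / n).num = ((m / Nat.gcd m n : ℕ) : ℤ) ∧ ((m : ℚ) / n).den = n / Nat.gcd m n := by
  have hg : 0 < Nat.gcd m n := Nat.gcd_pos_of_pos_right _ hn
  obtain ⟨a, ha⟩ := Nat.gcd_dvd_left m n
  obtain ⟨b, hb⟩ := Nat.gcd_dvd_right m n
  have hco := Nat.coprime_div_gcd_div_gcd (m := m) (n := n) hg
  have h1 : m / Nat.gcd m n = a := Nat.div_eq_of_eq_mul_right hg ha
  have h2 : n / Nat.gcd m n = b := Nat.div_eq_of_eq_mul_right hg hb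
  rw [h1, h2] at hco
  rw [h1, h2]
  have hb0 : 0 < b := Nat.pos_of_ne_zero fun h => by rw [h] at hb; omega
  have e : (m : ℚ) / n = ((a : ℤ) : ℚ) / ((b : ℤ) : ℚ) := by
    have hg' : ((Nat.gcd m n : ℕ) : ℚ) ≠ 0 := by exact_mod_cast hg.ne'
    have hb' : (b : ℚ) ≠ 0 := by exact_mod_cast hb0.ne'
    have e1 : (m : ℚ) = (Nat.gcd m n : ℕ) * a := by exact_mod_cast ha
    have e2 : (n : ℚ) = (Nat.gcd m n : ℕ) * b := by exact_mod_cast hb
    push_cast
    rw [div_eq_div_iff (by exact_mod_cast hn.ne') hb', e2]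
    nth_rewrite 1 [e1]
    ring
  rw [e]
  constructor
  · exact Rat.num_div_eq_of_coprime (by exact_mod_cast hb0) (by simpa using hco)
  · have := Rat.den_div_eq_of_coprime (a := (a : ℤ)) (b := (b : ℤ)) (by exact_mod_cast hb0)
      (by simpa using hco)
    exact_mod_cast this

theorem ratDiv {m n : α → ℕ} (hm : Poly m) (hn : Poly n) (h0 : ∀ a, 0 < n a) :
    Poly (fun a => (m a : ℚ) / (n a : ℚ)) := by
  have hg := gcd hm hn
  refine Poly.of_toT ((Poly.toT' (Poly.pair ((div hm hg).natCast_int) (div hn hg))).congr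
    fun a => ?_)
  change toT (((m a / Nat.gcd (m a) (n a) : ℕ) : ℤ), n a / Nat.gcd (m a) (n a)) =
    toT (((m a : ℚ) / (n a : ℚ)).num, ((m a : ℚ) / (n a : ℚ)).den)
  obtain ⟨h1, h2⟩ := rat_div_num (m a) (n a) (h0 a)
  rw [h1, h2]

attribute [fun_prop] ratNum ratDen intAbs natCast_rat

end Poly

end Pool.Agent.NPC

namespace Pool.Agent.Helper80K.Ft

open Pool.Agent.NPC

/-- comparison of nonnegative rational numbers -/
def ltQ (a b : ℚ) : Bool := decide (a.num.natAbs * b.den < b.num.natAbs * a.den)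

theorem ltQ_iff {a b : ℚ} (ha : 0 ≤ a) (hb : 0 ≤ b) : ltQ a b = true ↔ a < b := by
  have h1 : (a.num.natAbs : ℤ) = a.num := Int.natAbs_of_nonneg (Rat.num_nonneg.2 ha)
  have h2 : (b.num.natAbs : ℤ) = b.num := Int.natAbs_of_nonneg (Rat.num_nonneg.2 hb)
  unfold ltQ
  rw [decide_eq_true_iff, Rat.lt_iff, ← h1, ← h2]
  exact_mod_cast Iff.rfl

theorem ltQ_poly {α : Type} [TEnc α] {f g : α → ℚ} (hf : Poly f) (hg : Poly g) :
    Poly (fun a => ltQ (f a) (g a)) := by
  unfold ltQ
  fun_prop

attribute [fun_prop] ltQ_poly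

/-- the long job of gadget `i` ends before the short job -/
def beforeQ (Q : List (ℕ × ℚ × ℚ × ℚ)) (i : ℕ) : Bool :=
  Q.any fun p => decide (p.1 = 2 * i + 1) &&
    Q.all fun p' => !(decide (p'.1 = 2 * i)) || ltQ p'.2.2.1 p.2.2.1

theorem beforeQ_poly {α : Type} [TEnc α] {f : α → List (ℕ × ℚ × ℚ × ℚ)} {g : α → ℕ}
    (hf : Poly f) (hg : Poly g) : Poly (fun a => beforeQ (f a) (g a)) := by
  unfold beforeQ
  fun_prop

attribute [fun_prop] beforeQ_poly

/-- the selected items -/
def selQ (l : List ℕ) (Q : List (ℕ × ℚ × ℚ × ℚ)) : ℕ :=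
  ((l.zipIdx.filter fun x => beforeQ Q x.2).map fun x => x.1).sum

theorem selQ_poly {α : Type} [TEnc α] {f : α → List (ℕ × ℚ × ℚ × ℚ)} {g : α → List ℕ}
    (hf : Poly f) (hg : Poly g) : Poly (fun a => selQ (g a) (f a)) := by
  unfold selQ
  fun_prop

attribute [fun_prop] selQ_poly

theorem selQ_sublist (l : List ℕ) (Q : List (ℕ × ℚ × ℚ × ℚ)) :
    ∃ s : List ℕ, s.Sublist l ∧ s.sum = selQ l Q := by
  refine ⟨(l.zipIdx.filter fun x => beforeQ Q x.2).map fun x => x.1, ?_, rfl⟩
  have h := (List.filter_sublist (l := l.zipIdx) (p := fun x => beforeQ Q x.2)).map Prod.fst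
  rwa [List.zipIdx_map_fst] at h

theorem completion_eq_zero_or (P : Plan) (i : ℕ) :
    P.completion i = 0 ∨ ∃ p ∈ P, p.1 = i ∧ P.completion i = p.2.2.1 := by
  have key : ∀ l : List ℝ, l.foldr max 0 = 0 ∨ l.foldr max 0 ∈ l := by
    intro l
    induction l with
    | nil => left; rfl
    | cons a l ih =>
      rw [List.foldr_cons]
      rcases max_choice a (l.foldr max 0) with h | h
      · right
        rw [h]
        exact List.mem_cons_self
      · rw [h]
        rcases ih with h' | h'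
        · left; exact h'
        · right; exact List.mem_cons_of_mem _ h'
  rcases key ((P.filter fun p => p.1 = i).map fun p => p.2.2.1) with h | h
  · left; exact h
  · right
    rw [List.mem_map] at h
    obtain ⟨p, hp, h2⟩ := h
    rw [List.mem_filter] at hp
    exact ⟨p, hp.1, by simpa using hp.2, h2.symm⟩

theorem beforeQ_iff {Q : List (ℕ × ℚ × ℚ × ℚ)} (h0 : ∀ p ∈ Q, 0 < p.2.2.1) (i : ℕ) :
    beforeQ Q i = true ↔ (planOf Q).completion (2 * i) < (planOf Q).completion (2 * i + 1) := by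
  have h0' : ∀ p ∈ planOf Q, 0 < p.2.2.1 := by
    intro p hp
    unfold planOf at hp
    rw [List.mem_map] at hp
    obtain ⟨p', hp', rfl⟩ := hp
    change (0 : ℝ) < ((p'.2.2.1 : ℚ) : ℝ)
    exact_mod_cast h0 p' hp'
  have hmem : ∀ p ∈ Q, (p.1, (p.2.1 : ℝ), (p.2.2.1 : ℝ), (p.2.2.2 : ℝ)) ∈ planOf Q := by
    intro p hp
    exact List.mem_map.2 ⟨p, hp, rfl⟩
  unfold beforeQ
  rw [List.any_eq_true]
  constructor
  · rintro ⟨p, hp, h⟩
    rw [Bool.and_eq_true, decide_eq_true_iff, List.all_eq_true] at h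
    obtain ⟨h1, h2⟩ := h
    have h3 := end_le_completion (hmem p hp)
    simp only [h1] at h3
    refine lt_of_lt_of_le ?_ h3
    rcases completion_eq_zero_or (planOf Q) (2 * i) with h4 | ⟨p', hp', h4, h5⟩
    · rw [h4]
      exact_mod_cast h0 p hp
    · rw [h5]
      unfold planOf at hp'
      rw [List.mem_map] at hp'
      obtain ⟨q, hq, rfl⟩ := hp'
      have h6 := h2 q hq
      simp only at h4
      rw [h4] at h6
      simp only [decide_true, Bool.not_true, Bool.false_or] at h6
      rw [ltQ_iff (h0 q hq).le (h0 p hp).le] at h6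
      change ((q.2.2.1 : ℚ) : ℝ) < ((p.2.2.1 : ℚ) : ℝ)
      exact_mod_cast h6
  · intro h
    have hpos : 0 ≤ (planOf Q).completion (2 * i) := by
      rcases completion_eq_zero_or (planOf Q) (2 * i) with h4 | ⟨p', hp', h4, h5⟩
      · rw [h4]
      · rw [h5]
        exact (h0' p' hp').le
    rcases completion_eq_zero_or (planOf Q) (2 * i + 1) with h4 | ⟨p', hp', h4, h5⟩
    · linarith
    · unfold planOf at hp'
      rw [List.mem_map] at hp'
      obtain ⟨p, hp, rfl⟩ := hp'
      refine ⟨p, hp, ?_⟩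
      simp only at h4
      rw [Bool.and_eq_true, decide_eq_true_iff, List.all_eq_true]
      refine ⟨h4, fun q hq => ?_⟩
      by_cases h6 : q.1 = 2 * i
      · simp only [h6, decide_true, Bool.not_true, Bool.false_or]
        rw [ltQ_iff (h0 q hq).le (h0 p hp).le]
        have h7 := end_le_completion (hmem q hq)
        simp only [h6] at h7
        rw [h5] at h
        have h8 : ((q.2.2.1 : ℚ) : ℝ) < ((p.2.2.1 : ℚ) : ℝ) := lt_of_le_of_lt h7 h
        exact_mod_cast h8
      · simp [h6]

theorem selQ_eq (l : List ℕ) {Q : List (ℕ × ℚ × ℚ × ℚ)} (h0 : ∀ p ∈ Q, 0 < p.2.2.1) :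
    selQ l Q = sel l (planOf Q) := by
  classical
  have key : ∀ (b : ℕ → Bool) (l : List ℕ) (k : ℕ),
      (((l.zipIdx k).filter fun x => b x.2).map fun x => x.1).sum =
        ∑ i ∈ Finset.range l.length, if b (k + i) = true then l.getD i 0 else 0 := by
    intro b l
    induction l with
    | nil => intro k; simp
    | cons a l ih =>
      intro k
      rw [List.zipIdx_cons, List.length_cons, Finset.sum_range_succ', List.filter_cons]
      simp only [List.getD_cons_succ, List.getD_cons_zero, add_zero]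
      have h := ih (k + 1)
      have e : ∀ i ∈ Finset.range l.length, (if b (k + (i + 1)) = true then l.getD i 0 else 0) =
          if b (k + 1 + i) = true then l.getD i 0 else 0 := by
        intro i _
        rw [show k + (i + 1) = k + 1 + i by omega]
      rw [Finset.sum_congr rfl e, ← h]
      by_cases hb : b k = true
      · rw [if_pos hb, if_pos hb, List.map_cons, List.sum_cons, add_comm]
      · rw [if_neg hb, if_neg hb, add_zero]
  unfold selQ sel
  rw [key]
  apply Finset.sum_congr rfl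
  intro i _
  rw [zero_add]
  by_cases h : beforeQ Q i = true
  · rw [if_pos h, if_pos ((beforeQ_iff h0 i).1 h)]
  · rw [if_neg h, if_neg (fun h' => h ((beforeQ_iff h0 i).2 h'))]

theorem jobsFrom_eq (l : List ℕ) (τ k : ℕ) : jobsFrom τ l =
    (l.zipIdx k).flatMap fun x => [(((τ + 64 * (l.take (x.2 - k)).sum : ℕ) : ℚ), ((4 * x.1 : ℕ) : ℚ)),
      (((τ + 64 * (l.take (x.2 - k)).sum + x.1 : ℕ) : ℚ), ((3 * x.1 : ℕ) : ℚ))] := by
  induction l generalizing τ k with
  | nil => rfl
  | cons a l ih =>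
    rw [List.zipIdx_cons, List.flatMap_cons, jobsFrom, ih (τ + 64 * a) (k + 1)]
    simp only [Nat.sub_self, List.take_zero, List.sum_nil, mul_zero, add_zero, List.cons_append,
      List.nil_append]
    congr 2
    rw [List.flatMap_congr]
    intro x hx
    have h1 : k + 1 ≤ x.2 := by
      have := List.mem_zipIdx hx
      omega
    have h2 : x.2 - k = (x.2 - (k + 1)) + 1 := by omega
    rw [h2, List.take_succ_cons, List.sum_cons]
    have h3 : τ + 64 * (a + (List.take (x.2 - (k + 1)) l).sum) =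
        τ + 64 * a + 64 * (List.take (x.2 - (k + 1)) l).sum := by ring
    rw [h3]

theorem take_eq (l : List ℕ) (i : ℕ) :
    l.take i = (l.zipIdx.filter fun x => decide (x.2 < i)).map fun x => x.1 := by
  have key : ∀ (l : List ℕ) (i k : ℕ), l.take (i - k) =
      ((l.zipIdx k).filter fun x => decide (x.2 < i)).map fun x => x.1 := by
    intro l
    induction l with
    | nil => simp
    | cons a l ih =>
      intro i k
      rw [List.zipIdx_cons, List.filter_cons]
      by_cases h : k < i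
      · have h2 : i - k = (i - (k + 1)) + 1 := by omega
        rw [if_pos (by simpa using h), h2, List.take_succ_cons, List.map_cons, ← ih]
      · rw [if_neg (by simpa using h), ← ih]
        have h2 : i - k = 0 := by omega
        have h3 : i - (k + 1) = 0 := by omega
        rw [h2, h3]
        rfl
  have := key l i 0
  simpa using this

theorem jobsFrom_poly {α : Type} [TEnc α] {g : α → List ℕ} (hg : Poly g) :
    Poly (fun a => jobsFrom 0 (g a)) := by
  have h : Poly (fun a => (g a).zipIdx.flatMap fun x =>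
      [(((0 + 64 * (((g a).zipIdx.filter fun y => decide (y.2 < x.2)).map fun y => y.1).sum : ℕ) : ℚ),
        ((4 * x.1 : ℕ) : ℚ)),
      (((0 + 64 * (((g a).zipIdx.filter fun y => decide (y.2 < x.2)).map fun y => y.1).sum + x.1 : ℕ)
        : ℚ), ((3 * x.1 : ℕ) : ℚ))]) := by
    fun_prop
  refine h.congr fun a => ?_
  rw [jobsFrom_eq (g a) 0 0]
  simp only [Nat.sub_zero, take_eq]

attribute [fun_prop] jobsFrom_poly

end Pool.Agent.Helper80K.Ft
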