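import Mathlib
import Pool.Agent.NPC.Classes

/-!
# Total flow time under an energy budget: definitions

A processor with the power function `P(s) = s ^ α`. A job is a pair `(r, w)` of rational numbers,
its release time and its work; `J : List (ℚ × ℚ)` is the list of the jobs.
-/

namespace Pool.Agent.Helper80K.Ft

open MeasureTheory Pool.Agent.NPC

/-- Release times are nonnegative, works and the energy budget `E` are positive. -/
def Valid (J : List (ℚ × ℚ)) (E : ℚ) : Prop := (∀ j ∈ J, 0 ≤ j.1 ∧ 0 < j.2) ∧ 0 < E

/-- A schedule for `n` jobs: for each time `t`, the speed `speed t` and the job `job t` which is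
processed at time `t` (or none). -/
structure Schedule (n : ℕ) where
  /-- the speed -/
  speed : ℝ → ℝ
  /-- the job that is processed -/
  job : ℝ → Option (Fin n)

namespace Schedule

variable {n : ℕ} (S : Schedule n)

/-- The work on job `i` that is done up to time `t`. -/
noncomputable def done (i : Fin n) (t : ℝ) : ENNReal :=
  ∫⁻ x in {x | x ∈ Set.Icc 0 t ∧ S.job x = some i}, ENNReal.ofReal (S.speed x)

/-- The completion time of job `i` if its work is `w`. -/
noncomputable def completion (i : Fin n) (w : ℝ) : ℝ :=
  sInf {t | 0 ≤ t ∧ ENNReal.ofReal w ≤ S.done i t}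

/-- The energy, that is, the integral of `speed t ^ α` over all `t ≥ 0`. -/
noncomputable def energy (α : ℝ) : ENNReal := ∫⁻ x in Set.Ici 0, ENNReal.ofReal (S.speed x ^ α)

end Schedule

/-- `S` is a schedule for the jobs `J`: speed and choice of the job are measurable, the speed is
nonnegative, at each time `t ≥ 0` only a released and unfinished job is processed, and all jobs
are finished at some time. -/
structure IsSchedule (J : List (ℚ × ℚ)) (S : Schedule J.length) : Prop where
  measurable_speed : Measurable S.speed
  measurable_job : ∀ i, MeasurableSet {t | S.job t = some i}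
  speed_nonneg : ∀ t, 0 ≤ t → 0 ≤ S.speed t
  released : ∀ t i, 0 ≤ t → S.job t = some i → ((J.get i).1 : ℝ) ≤ t
  unfinished : ∀ t i, 0 ≤ t → S.job t = some i → t ≤ S.completion i (J.get i).2
  finished : ∀ i, ∃ t, ENNReal.ofReal (J.get i).2 ≤ S.done i t

/-- The total flow time of a schedule: the sum of the differences of the completion times and
the release times. -/
noncomputable def Schedule.flow (J : List (ℚ × ℚ)) (S : Schedule J.length) : ℝ :=
  ∑ i, (S.completion i (J.get i).2 - (J.get i).1)

/-! ### Piecewise constant schedules -/

/-- A plan: a list of pieces `(i, a, b, s)`. In the time interval `[a, b)` the job number `i` is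
processed at the constant speed `s`. -/
abbrev Plan := List (ℕ × ℝ × ℝ × ℝ)

/-- `P` is a correct plan for the jobs `J`: every piece `(i, a, b, s)` belongs to a job which is
released at time `a`, has positive length and positive speed; the pieces are in the order of time
and do not overlap; and the work of the pieces of each job is exactly the work of the job. -/
structure IsPlan (J : List (ℚ × ℚ)) (P : Plan) : Prop where
  piece : ∀ p ∈ P, p.1 < J.length ∧ ((J.getD p.1 (0, 0)).1 : ℝ) ≤ p.2.1 ∧ p.2.1 < p.2.2.1 ∧
    0 < p.2.2.2
  order : P.Pairwise (fun p p' => p.2.2.1 ≤ p'.2.1)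
  work : ∀ i < J.length, ((P.filter fun p => p.1 = i).map fun p =>
    p.2.2.2 * (p.2.2.1 - p.2.1)).sum = (J.getD i (0, 0)).2

/-- The completion time of job `i`: the end of its last piece. -/
noncomputable def Plan.completion (P : Plan) (i : ℕ) : ℝ :=
  ((P.filter fun p => p.1 = i).map fun p => p.2.2.1).foldr max 0

/-- The total flow time of a plan. -/
noncomputable def Plan.flow (J : List (ℚ × ℚ)) (P : Plan) : ℝ :=
  ∑ i ∈ Finset.range J.length, (P.completion i - (J.getD i (0, 0)).1)

/-- The energy of a plan. -/
noncomputable def Plan.energy (α : ℝ) (P : Plan) : ℝ :=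
  (P.map fun p => p.2.2.2 ^ α * (p.2.2.1 - p.2.1)).sum

/-- The plan given by a list of pieces with rational numbers. -/
noncomputable def planOf (Q : List (ℕ × ℚ × ℚ × ℚ)) : Plan :=
  Q.map fun p => (p.1, (p.2.1 : ℝ), (p.2.2.1 : ℝ), (p.2.2.2 : ℝ))

/-- There is an efficient algorithm for total flow time under an energy budget with power
function `s ^ α`: a function `f` computable in polynomial time such that for all jobs `J`, all
energy budgets `E` and all rational `ε > 0`, if `Q` is the output on input `(J, E, ε)` then `Q` is
(the code of) a list of pieces which form a correct plan of energy at most `E` whose total flow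
time is at most the total flow time of any schedule of energy at most `E`, plus `ε`. -/
def Efficient (α : ℝ) : Prop :=
  ∃ f : List Bool → List Bool, PolyTime f ∧
    ∀ (J : List (ℚ × ℚ)) (E ε : ℚ), Valid J E → 0 < ε →
      ∃ Q : List (ℕ × ℚ × ℚ × ℚ), f (bits (J, E, ε)) = bits Q ∧
        IsPlan J (planOf Q) ∧ (planOf Q).energy α ≤ E ∧
        ∀ S : Schedule J.length, IsSchedule J S → S.energy α ≤ ENNReal.ofReal E →
          (planOf Q).flow J ≤ S.flow J + ε

end Pool.Agent.Helper80K.Ft
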