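import Pool.Agent.Helper80K.Ft.Ana
import Pool.Agent.Helper80K.Ft.Defs

/-!
# The gadgets and the lower bound
-/

namespace Pool.Agent.Helper80K.Ft

/-- The jobs of the gadgets for the items `a :: l`: a job of work `4 a` is released at time `τ`, a
job of work `3 a` is released at time `τ + a`; the next gadget starts at time `τ + 64 a`. -/
def jobsFrom : ℕ → List ℕ → List (ℚ × ℚ)
  | _, [] => []
  | τ, a :: l => (((τ : ℕ) : ℚ), ((4 * a : ℕ) : ℚ)) :: (((τ + a : ℕ) : ℚ), ((3 * a : ℕ) : ℚ)) ::
      jobsFrom (τ + 64 * a) l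

theorem length_jobsFrom (τ : ℕ) (l : List ℕ) : (jobsFrom τ l).length = 2 * l.length := by
  induction l generalizing τ with
  | nil => rfl
  | cons a l ih => simp [jobsFrom, ih]; ring

/-- the start of gadget `i` -/
def st (l : List ℕ) (i : ℕ) : ℕ := 64 * (l.take i).sum

theorem getD_even (l : List ℕ) (τ i : ℕ) (hi : i < l.length) :
    (jobsFrom τ l).getD (2 * i) (0, 0) = (((τ + st l i : ℕ) : ℚ), ((4 * l.getD i 0 : ℕ) : ℚ)) := by
  induction l generalizing τ i with
  | nil => simp at hi
  | cons a l ih =>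
    cases i with
    | zero => simp [jobsFrom, st]
    | succ i =>
      have h1 : 2 * (i + 1) = 2 * i + 1 + 1 := by ring
      have h2 := ih (τ + 64 * a) i (by simpa using hi)
      rw [h1]
      simp only [jobsFrom, List.getD_cons_succ]
      rw [h2]
      simp only [st, List.take_succ_cons, List.sum_cons]
      refine Prod.ext ?_ rfl
      push_cast
      ring

theorem getD_odd (l : List ℕ) (τ i : ℕ) (hi : i < l.length) :
    (jobsFrom τ l).getD (2 * i + 1) (0, 0) =
      (((τ + st l i + l.getD i 0 : ℕ) : ℚ), ((3 * l.getD i 0 : ℕ) : ℚ)) := by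
  induction l generalizing τ i with
  | nil => simp at hi
  | cons a l ih =>
    cases i with
    | zero => simp [jobsFrom, st]
    | succ i =>
      have h1 : 2 * (i + 1) + 1 = 2 * i + 1 + 1 + 1 := by ring
      have h2 := ih (τ + 64 * a) i (by simpa using hi)
      rw [h1]
      simp only [jobsFrom, List.getD_cons_succ]
      rw [h2]
      simp only [st, List.take_succ_cons, List.sum_cons]
      congr 3
      ring

theorem sum_pairs (f : ℕ → ℝ) (n : ℕ) :
    ∑ j ∈ Finset.range (2 * n), f j = ∑ i ∈ Finset.range n, (f (2 * i) + f (2 * i + 1)) := by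
  induction n with
  | zero => simp
  | succ n ih =>
    rw [show 2 * (n + 1) = 2 * n + 1 + 1 by ring, Finset.sum_range_succ, Finset.sum_range_succ, ih,
      Finset.sum_range_succ]
    ring

theorem sum_regroup (N : ℕ) (φ : ℕ → ℝ) (h : ℕ × ℝ × ℝ × ℝ → ℝ) (P : Plan)
    (hP : ∀ p ∈ P, p.1 < N) : (P.map fun p => φ p.1 * h p).sum =
      ∑ j ∈ Finset.range N, φ j * ((P.filter fun p => p.1 = j).map h).sum := by
  induction P with
  | nil => simp
  | cons p P ih =>
    rw [List.map_cons, List.sum_cons, ih fun q hq => hP q (List.mem_cons_of_mem _ hq)]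
    have h1 : ∀ j, ((((p :: P : Plan).filter fun p => p.1 = j).map h).sum) =
        (if p.1 = j then h p else 0) + (((P.filter fun p => p.1 = j).map h).sum) := by
      intro j
      by_cases hj : p.1 = j
      · simp [hj]
      · simp [hj]
    simp only [h1, mul_add, Finset.sum_add_distrib]
    congr 1
    rw [Finset.sum_eq_single p.1]
    · simp
    · intro j _ hj
      simp [Ne.symm hj]
    · intro hn
      exact absurd (Finset.mem_range.2 (hP p List.mem_cons_self)) hn

/-- non-overlapping pieces between `x` and `y` have total length at most `y - x` -/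
theorem packing (P : Plan) (h1 : ∀ p ∈ P, p.2.1 < p.2.2.1)
    (h2 : P.Pairwise (fun p p' => p.2.2.1 ≤ p'.2.1)) (x y : ℝ) (hxy : x ≤ y)
    (h3 : ∀ p ∈ P, x ≤ p.2.1 ∧ p.2.2.1 ≤ y) :
    (P.map fun p => p.2.2.1 - p.2.1).sum ≤ y - x := by
  induction P generalizing x with
  | nil => simpa using hxy
  | cons p P ih =>
    rw [List.map_cons, List.sum_cons]
    obtain ⟨h4, h5⟩ := List.pairwise_cons.1 h2
    have h6 := h3 p List.mem_cons_self
    have h7 := h1 p List.mem_cons_self
    have h8 := ih (fun q hq => h1 q (List.mem_cons_of_mem _ hq)) h5 p.2.2.1 h6.2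
      (fun q hq => ⟨h4 q hq, (h3 q (List.mem_cons_of_mem _ hq)).2⟩)
    linarith

theorem le_foldr_max (l : List ℝ) : ∀ x ∈ l, x ≤ l.foldr max 0 := by
  induction l with
  | nil => simp
  | cons a l ih =>
    intro x hx
    rw [List.foldr_cons]
    rcases List.mem_cons.1 hx with h | h
    · subst h
      exact le_max_left _ _
    · exact (ih x h).trans (le_max_right _ _)

theorem end_le_completion {P : Plan} {p : ℕ × ℝ × ℝ × ℝ} (hp : p ∈ P) :
    p.2.2.1 ≤ P.completion p.1 := by
  unfold Plan.completion
  apply le_foldr_max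
  rw [List.mem_map]
  exact ⟨p, by simp [hp], rfl⟩

open Classical in
/-- the value of the items whose gadget finishes the long job first -/
noncomputable def sel (l : List ℕ) (P : Plan) : ℕ :=
  ∑ i ∈ Finset.range l.length,
    if P.completion (2 * i) < P.completion (2 * i + 1) then l.getD i 0 else 0

theorem sel_le (l : List ℕ) (P : Plan) : sel l P ≤ l.sum := by
  classical
  have h : l.sum = ∑ i ∈ Finset.range l.length, l.getD i 0 := by
    induction l with
    | nil => simp
    | cons a l ih =>
      rw [List.sum_cons, List.length_cons, Finset.sum_range_succ']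
      simp only [List.getD_cons_succ, List.getD_cons_zero]
      rw [ih]
      ring
  rw [h]
  unfold sel
  apply Finset.sum_le_sum
  intro i _
  split_ifs <;> simp

/-- the total length of the pieces of a set of jobs -/
noncomputable def len (P : Plan) (j : ℕ) : ℝ :=
  ((P.filter fun p => p.1 = j).map fun p => p.2.2.1 - p.2.1).sum

variable {l : List ℕ} {P : Plan}

theorem len_le (hP : IsPlan (jobsFrom 0 l) P) {j : ℕ} (hj : j < (jobsFrom 0 l).length)
    (hw : (0 : ℝ) < ((jobsFrom 0 l).getD j (0, 0)).2) :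
    len P j ≤ P.completion j - (((jobsFrom 0 l).getD j (0, 0)).1 : ℝ) := by
  unfold len
  have hne : ∃ p ∈ P, p.1 = j := by
    by_contra hcon
    push Not at hcon
    have h1 := hP.work j hj
    have h2 : (P.filter fun p => p.1 = j) = [] := by
      rw [List.filter_eq_nil_iff]
      intro p hp
      simp [hcon p hp]
    rw [h2] at h1
    simp only [List.map_nil, List.sum_nil] at h1
    rw [← h1] at hw
    exact lt_irrefl _ hw
  apply packing
  · intro p hp
    exact (hP.piece p (List.mem_filter.1 hp).1).2.2.1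
  · exact hP.order.filter _
  · obtain ⟨p, hp, hpj⟩ := hne
    have h1 := hP.piece p hp
    have h2 := end_le_completion hp
    rw [hpj] at h1 h2
    linarith [h1.2.1, h1.2.2.1]
  · intro p hp
    obtain ⟨h1, h2⟩ := List.mem_filter.1 hp
    have h3 : p.1 = j := by simpa using h2
    have h4 := hP.piece p h1
    have h5 := end_le_completion h1
    rw [h3] at h4 h5
    exact ⟨h4.2.1, h5⟩

theorem len_add_le (hP : IsPlan (jobsFrom 0 l) P) {j k : ℕ} (hjk : j ≠ k)
    (hj : j < (jobsFrom 0 l).length)
    (hw : (0 : ℝ) < ((jobsFrom 0 l).getD j (0, 0)).2) {r : ℝ}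
    (hr1 : r ≤ (((jobsFrom 0 l).getD j (0, 0)).1 : ℝ))
    (hr2 : r ≤ (((jobsFrom 0 l).getD k (0, 0)).1 : ℝ))
    (hC : P.completion k ≤ P.completion j) :
    len P j + len P k ≤ P.completion j - r := by
  have hsplit : ∀ Q : Plan, ((Q.filter fun p => p.1 = j).map fun p => p.2.2.1 - p.2.1).sum +
      ((Q.filter fun p => p.1 = k).map fun p => p.2.2.1 - p.2.1).sum =
      ((Q.filter fun p => p.1 = j ∨ p.1 = k).map fun p => p.2.2.1 - p.2.1).sum := by
    intro Q
    induction Q with
    | nil => simp
    | cons q Q ih =>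
      by_cases h1 : q.1 = j
      · have h2 : q.1 ≠ k := fun h => hjk (h1.symm.trans h)
        simp only [h1, decide_true, List.filter_cons_of_pos, List.map_cons, List.sum_cons,
          Bool.true_or, true_or]
        have h3 : decide (j = k) = false := by simp [hjk]
        rw [List.filter_cons_of_neg (by simp [h2])]
        linarith
      · by_cases h2 : q.1 = k
        · rw [List.filter_cons_of_neg (by simp [h1]), List.filter_cons_of_pos (by simp [h2]),
            List.filter_cons_of_pos (by simp [h2])]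
          simp only [List.map_cons, List.sum_cons]
          linarith
        · rw [List.filter_cons_of_neg (by simp [h1]), List.filter_cons_of_neg (by simp [h2]),
            List.filter_cons_of_neg (by simp [h1, h2])]
          exact ih
  unfold len
  rw [hsplit P]
  have hne : ∃ p ∈ P, p.1 = j := by
    by_contra hcon
    push Not at hcon
    have h1 := hP.work j hj
    have h2 : (P.filter fun p => p.1 = j) = [] := by
      rw [List.filter_eq_nil_iff]
      intro p hp
      simp [hcon p hp]
    rw [h2] at h1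
    simp only [List.map_nil, List.sum_nil] at h1
    rw [← h1] at hw
    exact lt_irrefl _ hw
  apply packing
  · intro p hp
    exact (hP.piece p (List.mem_filter.1 hp).1).2.2.1
  · exact hP.order.filter _
  · obtain ⟨p, hp, hpj⟩ := hne
    have h1 := hP.piece p hp
    have h2 := end_le_completion hp
    rw [hpj] at h1 h2
    linarith [h1.2.1, h1.2.2.1]
  · intro p hp
    obtain ⟨h1, h2⟩ := List.mem_filter.1 hp
    have h3 : p.1 = j ∨ p.1 = k := by simpa using h2
    have h4 := hP.piece p h1
    have h5 := end_le_completion h1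
    rcases h3 with h3 | h3
    · rw [h3] at h4 h5
      exact ⟨hr1.trans h4.2.1, h5⟩
    · rw [h3] at h4 h5
      exact ⟨hr2.trans h4.2.1, h5.trans hC⟩

open Classical in
/-- the weight of a job -/
noncomputable def wt (P : Plan) (j : ℕ) : ℝ :=
  if j % 2 = 0 then (if P.completion j < P.completion (j + 1) then 2 else 1)
  else (if P.completion (j - 1) < P.completion j then 1 else 2)

theorem wt_pos (P : Plan) (j : ℕ) : 0 < wt P j := by
  unfold wt
  split_ifs <;> norm_num

theorem flow_ge (hl : ∀ a ∈ l, 0 < a) (hP : IsPlan (jobsFrom 0 l) P) :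
    ∑ j ∈ Finset.range (2 * l.length), wt P j * len P j - sel l P ≤ P.flow (jobsFrom 0 l) := by
  classical
  unfold Plan.flow
  rw [length_jobsFrom, sum_pairs, sum_pairs]
  unfold sel
  push_cast
  rw [← Finset.sum_sub_distrib]
  apply Finset.sum_le_sum
  intro i hi
  have hi' : i < l.length := Finset.mem_range.1 hi
  have h1 := getD_even l 0 i hi'
  have h2 := getD_odd l 0 i hi'
  have ha : 0 < l.getD i 0 := by
    rw [List.getD_eq_getElem _ _ hi']
    exact hl _ (List.getElem_mem _)
  have ha' : (0 : ℝ) < (l.getD i 0 : ℕ) := by exact_mod_cast ha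
  have hlen := length_jobsFrom 0 l
  have hj1 : 2 * i < (jobsFrom 0 l).length := by omega
  have hj2 : 2 * i + 1 < (jobsFrom 0 l).length := by omega
  have hw1 : (0 : ℝ) < ((jobsFrom 0 l).getD (2 * i) (0, 0)).2 := by
    rw [h1]
    push_cast
    linarith
  have hw2 : (0 : ℝ) < ((jobsFrom 0 l).getD (2 * i + 1) (0, 0)).2 := by
    rw [h2]
    push_cast
    linarith
  have e1 : wt P (2 * i) = if P.completion (2 * i) < P.completion (2 * i + 1) then 2 else 1 := by
    unfold wt
    rw [if_pos (by omega)]
  have e2 : wt P (2 * i + 1) =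
      if P.completion (2 * i) < P.completion (2 * i + 1) then 1 else 2 := by
    unfold wt
    rw [if_neg (by omega), Nat.add_sub_cancel]
  have r1 : (((jobsFrom 0 l).getD (2 * i) (0, 0)).1 : ℝ) = (st l i : ℕ) := by
    rw [h1]
    push_cast
    ring
  have r2 : (((jobsFrom 0 l).getD (2 * i + 1) (0, 0)).1 : ℝ) = (st l i : ℕ) + (l.getD i 0 : ℕ) := by
    rw [h2]
    push_cast
    ring
  rw [e1, e2]
  by_cases hc : P.completion (2 * i) < P.completion (2 * i + 1)
  · simp only [hc, if_true]
    have h3 := len_le hP hj1 hw1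
    have h4 := len_add_le hP (j := 2 * i + 1) (k := 2 * i) (by omega) hj2 hw2
      (r := (st l i : ℕ)) (by rw [r2]; linarith) (by rw [r1]) hc.le
    rw [r1] at h3 ⊢
    rw [r2]
    linarith
  · simp only [hc, if_false]
    have h3 := len_le hP hj2 hw2
    have h4 := len_add_le hP (j := 2 * i) (k := 2 * i + 1) (by omega) hj1 hw1
      (r := (st l i : ℕ)) (by rw [r1]) (by rw [r2]; linarith) (not_lt.1 hc)
    rw [r2] at h3
    rw [r1, r2]
    push_cast
    linarith

/-- The weighted work. -/
theorem work_eq {α : ℝ} (hP : IsPlan (jobsFrom 0 l) P) :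
    (P.map fun p => wt P p.1 ^ ((α - 1) / α) * (p.2.2.2 * (p.2.2.1 - p.2.1))).sum =
      MM α l.sum (sel l P) := by
  classical
  have hlen := length_jobsFrom 0 l
  rw [sum_regroup (2 * l.length) (fun j => wt P j ^ ((α - 1) / α))
    (fun p => p.2.2.2 * (p.2.2.1 - p.2.1)) P
    (fun p hp => by rw [← hlen]; exact (hP.piece p hp).1), sum_pairs]
  have hsum : (l.sum : ℝ) = ∑ i ∈ Finset.range l.length, (l.getD i 0 : ℝ) := by
    have h : l.sum = ∑ i ∈ Finset.range l.length, l.getD i 0 := by
      clear hP hlen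
      induction l with
      | nil => simp
      | cons a l ih =>
        rw [List.sum_cons, List.length_cons, Finset.sum_range_succ']
        simp only [List.getD_cons_succ, List.getD_cons_zero]
        rw [ih]
        ring
    rw [h]
    push_cast
    rfl
  unfold MM sel
  rw [hsum]
  push_cast
  rw [Finset.sum_mul, Finset.sum_mul, ← Finset.sum_add_distrib]
  apply Finset.sum_congr rfl
  intro i hi
  have hi' : i < l.length := Finset.mem_range.1 hi
  rw [hP.work (2 * i) (by omega), hP.work (2 * i + 1) (by omega), getD_even l 0 i hi',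
    getD_odd l 0 i hi']
  have e1 : wt P (2 * i) = if P.completion (2 * i) < P.completion (2 * i + 1) then 2 else 1 := by
    unfold wt
    rw [if_pos (by omega)]
  have e2 : wt P (2 * i + 1) =
      if P.completion (2 * i) < P.completion (2 * i + 1) then 1 else 2 := by
    unfold wt
    rw [if_neg (by omega), Nat.add_sub_cancel]
  rw [e1, e2]
  push_cast
  by_cases hc : P.completion (2 * i) < P.completion (2 * i + 1)
  · simp only [hc, if_true, Real.one_rpow]
    unfold dl qq
    ring
  · simp only [hc, if_false, Real.one_rpow]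
    unfold dl qq
    ring

/-- **The lower bound** on the total flow time. -/
theorem lower {α E : ℝ} (hα : 1 < α) (hl : ∀ a ∈ l, 0 < a) (hne : l ≠ [])
    (hP : IsPlan (jobsFrom 0 l) P) (hE : P.energy α ≤ E) (hE0 : 0 < E) :
    GG α l.sum (sel l P) E ≤ P.flow (jobsFrom 0 l) := by
  have hα0 : 0 < α := by linarith
  have hα1 : 0 < α - 1 := by linarith
  have hb := bet_pos hα
  have hlen := length_jobsFrom 0 l
  have hA : (0 : ℝ) < l.sum := by
    obtain ⟨a, ha⟩ := List.exists_mem_of_ne_nil l hne
    have h1 := List.single_le_sum (fun _ _ => Nat.zero_le _) a ha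
    have h2 := hl a ha
    exact_mod_cast lt_of_lt_of_le h2 h1
  have hM : 0 < MM α l.sum (sel l P) := MM_pos hα hA (Nat.cast_nonneg _)
  -- the weighted length
  set W : ℝ := ∑ j ∈ Finset.range (2 * l.length), wt P j * len P j with hW
  have hWeq : W = (P.map fun p => wt P p.1 * (p.2.2.1 - p.2.1)).sum := by
    rw [sum_regroup (2 * l.length) (fun j => wt P j) (fun p => (p.2.2.1 - p.2.1)) P
      (fun p hp => by rw [← hlen]; exact (hP.piece p hp).1)]
    rfl
  have hflow := flow_ge hl hP
  -- Hoelder
  have hconj : α.HolderConjugate (bet α) := by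
    refine (Real.holderConjugate_iff).2 ⟨hα, ?_⟩
    unfold bet
    field_simp
    ring
  have toFin : ∀ h : ℕ × ℝ × ℝ × ℝ → ℝ, (P.map h).sum = ∑ k : Fin P.length, h P[k] := by
    intro h
    rw [← List.sum_ofFn]
    congr 1
    apply List.ext_getElem
    · simp
    · intro n h1 h2
      simp
  have hpc : ∀ k : Fin P.length, 0 < P[k].2.2.1 - P[k].2.1 ∧ 0 < P[k].2.2.2 := by
    intro k
    have := hP.piece P[k] (List.getElem_mem _)
    exact ⟨by linarith [this.2.2.1], this.2.2.2⟩
  have hH := Real.inner_le_Lp_mul_Lq_of_nonneg Finset.univ hconj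
    (f := fun k : Fin P.length => P[k].2.2.2 * (P[k].2.2.1 - P[k].2.1) ^ (1 / α))
    (g := fun k : Fin P.length => (wt P P[k].1 * (P[k].2.2.1 - P[k].2.1)) ^ (1 / bet α))
    (fun k _ => by
      have := hpc k
      exact mul_nonneg this.2.le (Real.rpow_nonneg this.1.le _))
    (fun k _ => Real.rpow_nonneg (mul_nonneg (wt_pos _ _).le (hpc k).1.le) _)
  have e1 : ∑ k : Fin P.length, P[k].2.2.2 * (P[k].2.2.1 - P[k].2.1) ^ (1 / α) *
      (wt P P[k].1 * (P[k].2.2.1 - P[k].2.1)) ^ (1 / bet α) = MM α l.sum (sel l P) := by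
    rw [← work_eq hP, toFin]
    apply Finset.sum_congr rfl
    intro k _
    have h1 := hpc k
    rw [Real.mul_rpow (wt_pos _ _).le h1.1.le]
    have h2 : 1 / bet α = (α - 1) / α := by rw [bet_inv hα, one_div]
    rw [h2]
    have h3 : (P[k].2.2.1 - P[k].2.1) ^ (1 / α) * (P[k].2.2.1 - P[k].2.1) ^ ((α - 1) / α) =
        P[k].2.2.1 - P[k].2.1 := by
      rw [← Real.rpow_add h1.1]
      have : 1 / α + (α - 1) / α = 1 := by field_simp; ring
      rw [this, Real.rpow_one]
    calc _ = wt P P[k].1 ^ ((α - 1) / α) * (P[k].2.2.2 * ((P[k].2.2.1 - P[k].2.1) ^ (1 / α) *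
          (P[k].2.2.1 - P[k].2.1) ^ ((α - 1) / α))) := by ring
      _ = _ := by rw [h3]
  have e2 : ∑ k : Fin P.length, (P[k].2.2.2 * (P[k].2.2.1 - P[k].2.1) ^ (1 / α)) ^ α =
      P.energy α := by
    unfold Plan.energy
    rw [toFin]
    apply Finset.sum_congr rfl
    intro k _
    have h1 := hpc k
    rw [Real.mul_rpow h1.2.le (Real.rpow_nonneg h1.1.le _), ← Real.rpow_mul h1.1.le,
      one_div, inv_mul_cancel₀ hα0.ne', Real.rpow_one]
  have e3 : ∑ k : Fin P.length, ((wt P P[k].1 * (P[k].2.2.1 - P[k].2.1)) ^ (1 / bet α)) ^ bet α =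
      W := by
    rw [hWeq, toFin]
    apply Finset.sum_congr rfl
    intro k _
    have h1 := hpc k
    rw [← Real.rpow_mul (mul_nonneg (wt_pos _ _).le h1.1.le), one_div, inv_mul_cancel₀ hb.ne',
      Real.rpow_one]
  rw [e1, e2, e3] at hH
  have hW0 : 0 ≤ W := by
    rw [hWeq, toFin]
    exact Finset.sum_nonneg fun k _ => mul_nonneg (wt_pos _ _).le (hpc k).1.le
  have hEn0 : 0 ≤ P.energy α := by
    unfold Plan.energy
    rw [toFin]
    exact Finset.sum_nonneg fun k _ => mul_nonneg (Real.rpow_nonneg (hpc k).2.le _) (hpc k).1.le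
  have hH2 : MM α l.sum (sel l P) ≤ E ^ (1 / α) * W ^ (1 / bet α) :=
    hH.trans (mul_le_mul_of_nonneg_right (Real.rpow_le_rpow hEn0 hE (by positivity))
      (Real.rpow_nonneg hW0 _))
  have hH3 := Real.rpow_le_rpow hM.le hH2 hb.le
  rw [Real.mul_rpow (Real.rpow_nonneg hE0.le _) (Real.rpow_nonneg hW0 _), ← Real.rpow_mul hE0.le,
    ← Real.rpow_mul hW0, one_div_mul_cancel hb.ne', Real.rpow_one] at hH3
  have e4 : 1 / α * bet α = bet α - 1 := by
    unfold bet
    field_simp
    ring
  rw [e4] at hH3
  have hH4 : MM α l.sum (sel l P) ^ bet α * E ^ (1 - bet α) ≤ W := by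
    have h1 := mul_le_mul_of_nonneg_right hH3 (Real.rpow_nonneg hE0.le (1 - bet α))
    have h2 : E ^ (bet α - 1) * W * E ^ (1 - bet α) = W := by
      have h3 : E ^ (bet α - 1) * E ^ (1 - bet α) = 1 := by
        rw [← Real.rpow_add hE0]
        simp
      calc E ^ (bet α - 1) * W * E ^ (1 - bet α) = (E ^ (bet α - 1) * E ^ (1 - bet α)) * W := by
            ring
        _ = W := by rw [h3, one_mul]
    rwa [h2] at h1
  unfold GG
  linarith

end Pool.Agent.Helper80K.Ft
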