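import Pool.Agent.Helper80K.Ft.Lower

/-!
# Plans are schedules
-/

namespace Pool.Agent.Helper80K.Ft

open MeasureTheory

open Classical in
/-- a function that is constant on the pieces of a plan -/
noncomputable def valAt {β : Type} (d : β) (g : ℕ → ℝ → β) : Plan → ℝ → β
  | [], _ => d
  | p :: P, x => if p.2.1 ≤ x ∧ x < p.2.2.1 then g p.1 p.2.2.2 else valAt d g P x

theorem valAt_before {β : Type} (d : β) (g : ℕ → ℝ → β) (P : Plan) (x : ℝ)
    (h : ∀ p ∈ P, x < p.2.1) : valAt d g P x = d := by
  induction P with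
  | nil => rfl
  | cons p P ih =>
    have h1 := h p List.mem_cons_self
    rw [valAt, if_neg (by rintro ⟨h2, _⟩; linarith)]
    exact ih fun q hq => h q (List.mem_cons_of_mem _ hq)

theorem valAt_map {β γ : Type} (f : β → γ) (d : β) (g : ℕ → ℝ → β) (P : Plan) (x : ℝ) :
    f (valAt d g P x) = valAt (f d) (fun j v => f (g j v)) P x := by
  induction P with
  | nil => rfl
  | cons p P ih =>
    rw [valAt, valAt]
    split_ifs
    · rfl
    · exact ih

theorem valAt_cases {β : Type} (d : β) (g : ℕ → ℝ → β) (P : Plan) (x : ℝ) :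
    valAt d g P x = d ∨ ∃ p ∈ P, p.2.1 ≤ x ∧ x < p.2.2.1 ∧ valAt d g P x = g p.1 p.2.2.2 := by
  induction P with
  | nil => exact Or.inl rfl
  | cons p P ih =>
    rw [valAt]
    split_ifs with h
    · exact Or.inr ⟨p, List.mem_cons_self, h.1, h.2, rfl⟩
    · rcases ih with h1 | ⟨q, hq, h1⟩
      · exact Or.inl h1
      · exact Or.inr ⟨q, List.mem_cons_of_mem _ hq, h1⟩

theorem measurable_valAt {β : Type} [MeasurableSpace β] (d : β) (g : ℕ → ℝ → β) (P : Plan) :
    Measurable (valAt d g P) := by
  classical
  induction P with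
  | nil => exact measurable_const
  | cons p P ih =>
    have : valAt d g (p :: P) = fun x => if x ∈ Set.Ico p.2.1 p.2.2.1 then g p.1 p.2.2.2
        else valAt d g P x := by
      funext x
      rw [valAt]
      rfl
    rw [this]
    exact Measurable.ite measurableSet_Ico measurable_const ih

theorem lintegral_valAt (g : ℕ → ℝ → ENNReal) (P : Plan) (h1 : ∀ p ∈ P, p.2.1 < p.2.2.1)
    (h2 : P.Pairwise (fun p p' => p.2.2.1 ≤ p'.2.1)) (U : Set ℝ) :
    ∫⁻ x in U, valAt 0 g P x =
      (P.map fun p => g p.1 p.2.2.2 * volume (Set.Ico p.2.1 p.2.2.1 ∩ U)).sum := by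
  induction P with
  | nil => simp [valAt]
  | cons p P ih =>
    obtain ⟨h3, h4⟩ := List.pairwise_cons.1 h2
    have e1 : ∀ x, valAt 0 g (p :: P) x =
        (Set.Ico p.2.1 p.2.2.1).indicator (fun _ => g p.1 p.2.2.2) x + valAt 0 g P x := by
      intro x
      rw [valAt]
      by_cases h : p.2.1 ≤ x ∧ x < p.2.2.1
      · rw [if_pos h, Set.indicator_of_mem (show x ∈ Set.Ico p.2.1 p.2.2.1 from h),
          valAt_before 0 g P x (fun q hq => lt_of_lt_of_le h.2 (h3 q hq)), add_zero]
      · rw [if_neg h, Set.indicator_of_notMem (show x ∉ Set.Ico p.2.1 p.2.2.1 from h), zero_add]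
    simp only [e1]
    rw [lintegral_add_right _ (measurable_valAt _ _ _),
      ih (fun q hq => h1 q (List.mem_cons_of_mem _ hq)) h4,
      lintegral_indicator_const measurableSet_Ico, Measure.restrict_apply measurableSet_Ico,
      List.map_cons, List.sum_cons]

/-- The schedule of a plan. -/
noncomputable def toSchedule (n : ℕ) (P : Plan) : Schedule n where
  speed := valAt 0 (fun _ v => v) P
  job := valAt none (fun j _ => if h : j < n then some ⟨j, h⟩ else none) P

theorem volume_piece {a b t : ℝ} (ha : 0 ≤ a) (hab : a < b) :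
    volume (Set.Ico a b ∩ Set.Icc 0 t) = ENNReal.ofReal (max (min b t - a) 0) := by
  rcases lt_or_ge t a with h | h
  · have : Set.Ico a b ∩ Set.Icc 0 t = ∅ := by
      ext x
      simp only [Set.mem_inter_iff, Set.mem_Ico, Set.mem_Icc, Set.mem_empty_iff_false, iff_false]
      rintro ⟨⟨h1, _⟩, _, h2⟩
      linarith
    rw [this, measure_empty, min_eq_right (by linarith), max_eq_right (by linarith),
      ENNReal.ofReal_zero]
  · rcases lt_or_ge t b with h' | h'
    · have : Set.Ico a b ∩ Set.Icc 0 t = Set.Icc a t := by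
        ext x
        simp only [Set.mem_inter_iff, Set.mem_Ico, Set.mem_Icc]
        constructor
        · rintro ⟨⟨h1, _⟩, _, h2⟩
          exact ⟨h1, h2⟩
        · rintro ⟨h1, h2⟩
          exact ⟨⟨h1, by linarith⟩, by linarith, h2⟩
      rw [this, Real.volume_Icc, min_eq_right h'.le, max_eq_left (by linarith)]
    · have : Set.Ico a b ∩ Set.Icc 0 t = Set.Ico a b := by
        ext x
        simp only [Set.mem_inter_iff, Set.mem_Ico, Set.mem_Icc]
        constructor
        · rintro ⟨h1, _⟩
          exact h1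
        · rintro ⟨h1, h2⟩
          exact ⟨⟨h1, h2⟩, by linarith, by linarith⟩
      rw [this, Real.volume_Ico, min_eq_left h', max_eq_left (by linarith)]

/-- the work done on job `i` up to time `t` -/
noncomputable def dn (P : Plan) (i : ℕ) (t : ℝ) : ℝ :=
  ((P.filter fun p => p.1 = i).map fun p => p.2.2.2 * max (min p.2.2.1 t - p.2.1) 0).sum

section

variable {J : List (ℚ × ℚ)} {P : Plan}

theorem start_nonneg (hJ : ∀ j ∈ J, 0 ≤ j.1 ∧ 0 < j.2) (hP : IsPlan J P) :
    ∀ p ∈ P, 0 ≤ p.2.1 := by
  intro p hp
  obtain ⟨h1, h2, _⟩ := hP.piece p hp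
  refine le_trans ?_ h2
  rw [List.getD_eq_getElem _ _ h1]
  exact_mod_cast (hJ _ (List.getElem_mem h1)).1

theorem done_eq (hJ : ∀ j ∈ J, 0 ≤ j.1 ∧ 0 < j.2) (hP : IsPlan J P) (i : Fin J.length) (t : ℝ) :
    (toSchedule J.length P).done i t = ENNReal.ofReal (dn P i t) := by
  classical
  unfold Schedule.done
  have e0 : {x | x ∈ Set.Icc 0 t ∧ (toSchedule J.length P).job x = some i} =
      {x | (toSchedule J.length P).job x = some i} ∩ Set.Icc 0 t := by
    ext x
    simp only [Set.mem_ofPred_eq, Set.mem_inter_iff]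
    tauto
  have hmeas : MeasurableSet {x | (toSchedule J.length P).job x = some i} := by
    let _ : MeasurableSpace (Option (Fin J.length)) := ⊤
    exact measurable_valAt _ _ _ (MeasurableSpace.measurableSet_top (s := {some i}))
  rw [e0, ← setLIntegral_indicator hmeas]
  have e1 : ∀ x, {x | (toSchedule J.length P).job x = some i}.indicator
      (fun x => ENNReal.ofReal ((toSchedule J.length P).speed x)) x =
      valAt 0 (fun j v => if j = i then ENNReal.ofReal v else 0) P x := by
    intro x
    unfold toSchedule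
    simp only
    have key : ∀ Q : Plan, (∀ p ∈ Q, p.1 < J.length) →
        (if valAt none (fun j _ => if h : j < J.length then some (⟨j, h⟩ : Fin J.length) else none)
          Q x = some i then ENNReal.ofReal (valAt 0 (fun _ v => v) Q x) else 0) =
        valAt 0 (fun j v => if j = (i : ℕ) then ENNReal.ofReal v else 0) Q x := by
      intro Q hQ
      induction Q with
      | nil => simp [valAt]
      | cons q Q ih =>
        by_cases h1 : q.2.1 ≤ x ∧ x < q.2.2.1
        · have h2 := hQ q List.mem_cons_self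
          simp only [valAt, if_pos h1, dif_pos h2, Option.some.injEq]
          by_cases h3 : q.1 = i
          · rw [if_pos h3, if_pos (Fin.ext h3)]
          · rw [if_neg h3, if_neg (fun h => h3 (by rw [← h]))]
        · simp only [valAt, if_neg h1]
          exact ih fun p hp => hQ p (List.mem_cons_of_mem _ hp)
    rw [← key P fun p hp => (hP.piece p hp).1, Set.indicator_apply]
    rfl
  simp only [e1]
  rw [lintegral_valAt _ P (fun p hp => (hP.piece p hp).2.2.1) hP.order]
  unfold dn
  have hs := start_nonneg hJ hP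
  have hp1 : ∀ p ∈ P, p.2.1 < p.2.2.1 ∧ 0 < p.2.2.2 := fun p hp =>
    ⟨(hP.piece p hp).2.2.1, (hP.piece p hp).2.2.2⟩
  clear hmeas e0 e1 hP
  induction P with
  | nil => simp
  | cons p P ih =>
    have h1 := hs p List.mem_cons_self
    have h2 := hp1 p List.mem_cons_self
    rw [List.map_cons, List.sum_cons, ih (fun q hq => hs q (List.mem_cons_of_mem _ hq))
      (fun q hq => hp1 q (List.mem_cons_of_mem _ hq)), volume_piece h1 h2.1]
    by_cases h : p.1 = i
    · rw [if_pos h, List.filter_cons_of_pos (by simpa using h), List.map_cons, List.sum_cons,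
        ENNReal.ofReal_add, ENNReal.ofReal_mul h2.2.le]
      · exact mul_nonneg h2.2.le (le_max_right _ _)
      · apply List.sum_nonneg
        intro y hy
        obtain ⟨q, hq, rfl⟩ := List.mem_map.1 hy
        have := hp1 q (List.mem_cons_of_mem _ (List.mem_filter.1 hq).1)
        exact mul_nonneg this.2.le (le_max_right _ _)
    · rw [if_neg h, List.filter_cons_of_neg (by simpa using h), zero_mul, zero_add]

theorem exists_last (hP : IsPlan J P) (hJ : ∀ j ∈ J, 0 ≤ j.1 ∧ 0 < j.2) {i : ℕ}
    (hi : i < J.length) : ∃ p ∈ P, p.1 = i ∧ p.2.2.1 = P.completion i := by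
  have hw : (0 : ℝ) < (J.getD i (0, 0)).2 := by
    rw [List.getD_eq_getElem _ _ hi]
    exact_mod_cast (hJ _ (List.getElem_mem hi)).2
  have hne : (P.filter fun p => p.1 = i) ≠ [] := by
    intro hcon
    have h1 := hP.work i hi
    rw [hcon] at h1
    simp only [List.map_nil, List.sum_nil] at h1
    rw [← h1] at hw
    exact lt_irrefl _ hw
  have key : ∀ Q : List ℝ, Q ≠ [] → (∀ x ∈ Q, 0 < x) → Q.foldr max 0 ∈ Q := by
    intro Q
    induction Q with
    | nil => simp
    | cons x Q ih =>
      intro _ hx
      rw [List.foldr_cons]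
      by_cases hQ : Q = []
      · subst hQ
        have := hx x List.mem_cons_self
        simp [this.le]
      · have h2 := ih hQ fun y hy => hx y (List.mem_cons_of_mem _ hy)
        rcases le_total x (Q.foldr max 0) with h | h
        · rw [max_eq_right h]
          exact List.mem_cons_of_mem _ h2
        · rw [max_eq_left h]
          exact List.mem_cons_self
  have h1 := key ((P.filter fun p => p.1 = i).map fun p => p.2.2.1) (by simpa using hne) (by
    intro x hx
    obtain ⟨p, hp, rfl⟩ := List.mem_map.1 hx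
    have h2 := (List.mem_filter.1 hp).1
    have h3 := start_nonneg hJ hP p h2
    have h4 := (hP.piece p h2).2.2.1
    linarith)
  obtain ⟨p, hp, hp2⟩ := List.mem_map.1 h1
  obtain ⟨h2, h3⟩ := List.mem_filter.1 hp
  exact ⟨p, h2, by simpa using h3, hp2⟩

theorem dn_completion (hP : IsPlan J P) {i : ℕ} (hi : i < J.length) :
    dn P i (P.completion i) = (J.getD i (0, 0)).2 := by
  unfold dn
  rw [← hP.work i hi]
  congr 1
  apply List.map_congr_left
  intro p hp
  obtain ⟨h1, h2⟩ := List.mem_filter.1 hp
  have h3 : p.1 = i := by simpa using h2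
  have h4 := end_le_completion h1
  rw [h3] at h4
  have h5 := (hP.piece p h1).2.2.1
  rw [min_eq_left h4, max_eq_left (by linarith)]

theorem dn_lt (hP : IsPlan J P) (hJ : ∀ j ∈ J, 0 ≤ j.1 ∧ 0 < j.2) {i : ℕ} (hi : i < J.length)
    {t : ℝ} (ht : t < P.completion i) : dn P i t < (J.getD i (0, 0)).2 := by
  rw [← hP.work i hi]
  unfold dn
  obtain ⟨p, hp, hpi, hpc⟩ := exists_last hP hJ hi
  apply List.sum_lt_sum
  · intro q hq
    have h1 := hP.piece q (List.mem_filter.1 hq).1
    apply mul_le_mul_of_nonneg_left _ h1.2.2.2.le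
    exact max_le (by linarith [min_le_left q.2.2.1 t]) (by linarith [h1.2.2.1])
  · refine ⟨p, List.mem_filter.2 ⟨hp, by simpa using hpi⟩, ?_⟩
    have h1 := hP.piece p hp
    apply mul_lt_mul_of_pos_left _ h1.2.2.2
    rw [← hpc] at ht
    exact max_lt (by rw [min_eq_right ht.le]; linarith) (by linarith [h1.2.2.1])

theorem completion_eq (hP : IsPlan J P) (hJ : ∀ j ∈ J, 0 ≤ j.1 ∧ 0 < j.2) (i : Fin J.length) :
    (toSchedule J.length P).completion i (J.get i).2 = P.completion i := by
  have hi := i.2
  have hget : J.getD (i : ℕ) (0, 0) = J.get i := by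
    rw [List.getD_eq_getElem _ _ hi]
    rfl
  obtain ⟨p, hp, hpi, hpc⟩ := exists_last hP hJ hi
  have hC0 : 0 ≤ P.completion i := by
    have h3 := start_nonneg hJ hP p hp
    have h4 := (hP.piece p hp).2.2.1
    linarith
  have hw : (0 : ℝ) < ((J.get i).2 : ℝ) := by exact_mod_cast (hJ _ (List.get_mem _ _)).2
  unfold Schedule.completion
  have hset : {t | 0 ≤ t ∧ ENNReal.ofReal ((J.get i).2 : ℝ) ≤ (toSchedule J.length P).done i t} ⊆
      Set.Ici (P.completion i) := by
    rintro t ⟨_, h2⟩
    by_contra hlt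
    simp only [Set.mem_Ici, not_le] at hlt
    have h3 := dn_lt hP hJ hi hlt
    rw [hget] at h3
    rw [done_eq hJ hP i t] at h2
    have h4 := (ENNReal.ofReal_le_ofReal_iff' ).1 h2
    rcases h4 with h4 | h4 <;> linarith
  have hmem : P.completion i ∈
      {t | 0 ≤ t ∧ ENNReal.ofReal ((J.get i).2 : ℝ) ≤ (toSchedule J.length P).done i t} := by
    refine ⟨hC0, ?_⟩
    rw [done_eq hJ hP i, dn_completion hP hi, hget]
  apply le_antisymm
  · exact csInf_le ⟨P.completion i, fun t ht => hset ht⟩ hmem
  · exact le_csInf ⟨_, hmem⟩ fun t ht => hset ht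

theorem isSchedule (hP : IsPlan J P) (hJ : ∀ j ∈ J, 0 ≤ j.1 ∧ 0 < j.2) :
    IsSchedule J (toSchedule J.length P) where
  measurable_speed := measurable_valAt _ _ _
  measurable_job := by
    intro i
    let _ : MeasurableSpace (Option (Fin J.length)) := ⊤
    exact measurable_valAt _ _ _ (MeasurableSpace.measurableSet_top (s := {some i}))
  speed_nonneg := by
    intro t _
    rcases valAt_cases 0 (fun _ v => v) P t with h | ⟨p, hp, _, _, h⟩
    · exact h.ge
    · have h5 : (toSchedule J.length P).speed t = p.2.2.2 := h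
      rw [h5]
      exact (hP.piece p hp).2.2.2.le
  released := by
    intro t i _ h
    rcases valAt_cases none (fun j _ => if h : j < J.length then some (⟨j, h⟩ : Fin J.length)
      else none) P t with h1 | ⟨p, hp, h2, h3, h4⟩
    · have h5 : (toSchedule J.length P).job t = none := h1
      rw [h5] at h
      exact absurd h (by simp)
    · have h5 : (toSchedule J.length P).job t = _ := h4
      have h6 := hP.piece p hp
      rw [h5, dif_pos h6.1] at h
      simp only [Option.some.injEq] at h
      have h7 : J.getD p.1 (0, 0) = J.get i := by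
        rw [List.getD_eq_getElem J (0, 0) h6.1, ← h]
        rfl
      rw [← h7]
      exact h6.2.1.trans h2
  unfinished := by
    intro t i _ h
    rcases valAt_cases none (fun j _ => if h : j < J.length then some (⟨j, h⟩ : Fin J.length)
      else none) P t with h1 | ⟨p, hp, h2, h3, h4⟩
    · have h5 : (toSchedule J.length P).job t = none := h1
      rw [h5] at h
      exact absurd h (by simp)
    · have h5 : (toSchedule J.length P).job t = _ := h4
      have h6 := hP.piece p hp
      rw [h5, dif_pos h6.1] at h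
      simp only [Option.some.injEq] at h
      have h7 : p.1 = i := by rw [← h]
      rw [completion_eq hP hJ, ← h7]
      exact h3.le.trans (end_le_completion hp)
  finished := by
    intro i
    refine ⟨P.completion i, ?_⟩
    have hget : J.getD (i : ℕ) (0, 0) = J.get i := by
      rw [List.getD_eq_getElem _ _ i.2]
      rfl
    rw [done_eq hJ hP i, dn_completion hP i.2, hget]

theorem flow_eq (hP : IsPlan J P) (hJ : ∀ j ∈ J, 0 ≤ j.1 ∧ 0 < j.2) :
    (toSchedule J.length P).flow J = P.flow J := by
  unfold Schedule.flow Plan.flow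
  rw [Finset.sum_range]
  apply Finset.sum_congr rfl
  intro i _
  have hget : J.getD (i : ℕ) (0, 0) = J.get i := by
    rw [List.getD_eq_getElem _ _ i.2]
    rfl
  rw [completion_eq hP hJ, hget]

theorem energy_eq {α : ℝ} (hα : 0 < α) (hP : IsPlan J P) (hJ : ∀ j ∈ J, 0 ≤ j.1 ∧ 0 < j.2) :
    (toSchedule J.length P).energy α = ENNReal.ofReal (P.energy α) := by
  unfold Schedule.energy Plan.energy
  have e1 : ∀ x, ENNReal.ofReal ((toSchedule J.length P).speed x ^ α) =
      valAt 0 (fun _ v => ENNReal.ofReal (v ^ α)) P x := by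
    intro x
    have h := valAt_map (fun y : ℝ => ENNReal.ofReal (y ^ α)) 0 (fun _ v => v) P x
    simp only [Real.zero_rpow hα.ne', ENNReal.ofReal_zero] at h
    exact h
  simp only [e1]
  rw [lintegral_valAt _ P (fun p hp => (hP.piece p hp).2.2.1) hP.order]
  have hs := start_nonneg hJ hP
  have hp1 : ∀ p ∈ P, p.2.1 < p.2.2.1 ∧ 0 < p.2.2.2 := fun p hp =>
    ⟨(hP.piece p hp).2.2.1, (hP.piece p hp).2.2.2⟩
  clear e1 hP
  induction P with
  | nil => simp
  | cons p P ih =>
    have h1 := hs p List.mem_cons_self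
    have h2 := hp1 p List.mem_cons_self
    have h3 : Set.Ico p.2.1 p.2.2.1 ∩ Set.Ici 0 = Set.Ico p.2.1 p.2.2.1 := by
      ext x
      simp only [Set.mem_inter_iff, Set.mem_Ico, Set.mem_Ici]
      constructor
      · exact fun h => h.1
      · exact fun h => ⟨h, h1.trans h.1⟩
    rw [List.map_cons, List.sum_cons, ih (fun q hq => hs q (List.mem_cons_of_mem _ hq))
      (fun q hq => hp1 q (List.mem_cons_of_mem _ hq)), h3, Real.volume_Ico, List.map_cons,
      List.sum_cons, ENNReal.ofReal_add, ENNReal.ofReal_mul (Real.rpow_nonneg h2.2.le _)]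
    · exact mul_nonneg (Real.rpow_nonneg h2.2.le _) (by linarith)
    · apply List.sum_nonneg
      intro y hy
      obtain ⟨q, hq, rfl⟩ := List.mem_map.1 hy
      have := hp1 q (List.mem_cons_of_mem _ hq)
      exact mul_nonneg (Real.rpow_nonneg this.2.le _) (by linarith)

end

end Pool.Agent.Helper80K.Ft
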