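import Pool.Agent.Helper80K.Ft.Code

/-!
# The binary search for the energy budget
-/

namespace Pool.Agent.Helper80K.Ft

open Pool.Agent.NPC Pool.Agent.NPC.R671.SS Pool.Agent.H642R2.TMSim

/-- the instance in the query number `m` -/
def query (D k1 : ℕ) (l : List ℕ) (m : ℕ) : List (ℚ × ℚ) × ℚ × ℚ :=
  (jobsFrom 0 l, (m : ℚ) / (D : ℚ), ((1 : ℕ) : ℚ) / ((k1 * l.sum + 1 : ℕ) : ℚ))

/-- the total size of the items selected by the answer -/
def ask (f : List Bool → List Bool) (D k1 : ℕ) (l : List ℕ) (m : ℕ) : ℕ :=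
  (unbits (List (ℕ × ℚ × ℚ × ℚ)) (f (bits (query D k1 l m)))).elim 0 (selQ l)

theorem query_poly {α : Type} [TEnc α] {D k1 : ℕ} (hD : 0 < D) {g : α → List ℕ} {h : α → ℕ}
    (hg : Poly g) (hh : Poly h) : Poly (fun a => query D k1 (g a) (h a)) := by
  unfold query
  refine Poly.pair (jobsFrom_poly hg) (Poly.pair ?_ ?_)
  · exact NPC.Poly.ratDiv hh (NPC.Poly.const D) (fun _ => hD)
  · refine NPC.Poly.ratDiv (NPC.Poly.const 1) ?_ (fun _ => Nat.succ_pos _)
    fun_prop

theorem ask_poly {α : Type} [TEnc α] {f : List Bool → List Bool} (hf : PolyTime f) {D k1 : ℕ}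
    (hD : 0 < D) {g : α → List ℕ} {h : α → ℕ} (hg : Poly g) (hh : Poly h) :
    Poly (fun a => ask f D k1 (g a) (h a)) := by
  have h1 : PC (bits : α → List Bool) (bits : (List (ℚ × ℚ) × ℚ × ℚ) → List Bool)
      (fun a => query D k1 (g a) (h a)) := query_poly hD hg hh
  have h2 : PC (bits : α → List Bool) (id : List Bool → List Bool)
      (fun a => bits (query D k1 (g a) (h a))) := h1
  have h3 : PC (bits : α → List Bool) (id : List Bool → List Bool)
      (fun a => f (bits (query D k1 (g a) (h a)))) := PC.comp (polyTime_toPC hf) h2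
  have h4 : Poly (fun a => f (bits (query D k1 (g a) (h a)))) :=
    PC.comp (f := fun a => f (bits (query D k1 (g a) (h a)))) (g := fun x => x) PC.rawIn h3
  have h5 : Poly (fun a => unbits (List (ℕ × ℚ × ℚ × ℚ)) (f (bits (query D k1 (g a) (h a))))) :=
    Poly.comp poly_unbits h4
  exact Poly.optElim (g := fun _ => 0) (h := fun a Q => selQ (g a) Q) h5 (NPC.Poly.const 0)
    (selQ_poly (Poly.snd Poly.id) (Poly.comp hg (Poly.fst Poly.id)))

theorem ask_sublist (f : List Bool → List Bool) (D k1 : ℕ) (l : List ℕ) (m : ℕ) :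
    ∃ s : List ℕ, s.Sublist l ∧ s.sum = ask f D k1 l m := by
  unfold ask
  cases unbits (List (ℕ × ℚ × ℚ × ℚ)) (f (bits (query D k1 l m))) with
  | none => exact ⟨[], List.nil_sublist _, rfl⟩
  | some Q => exact selQ_sublist l Q

/-- one step of the search -/
def step (f : List Bool → List Bool) (D k1 : ℕ) (x : List ℕ × ℕ) (s : ℕ × ℕ × Bool) :
    ℕ × ℕ × Bool :=
  if ask f D k1 x.1 ((s.1 + s.2.1) / 2) = x.2 then (s.1, s.2.1, true)
  else if ask f D k1 x.1 ((s.1 + s.2.1) / 2) < x.2 then ((s.1 + s.2.1) / 2, s.2.1, s.2.2)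
  else (s.1, (s.1 + s.2.1) / 2, s.2.2)

/-- the search -/
def search (f : List Bool → List Bool) (D a0 b0 k1 : ℕ) (x : List ℕ × ℕ) : Bool :=
  ((step f D k1 x)^[(true :: (x.1.sum * b0).bits).length] (x.1.sum * a0, x.1.sum * b0, false)).2.2

theorem step_poly {f : List Bool → List Bool} (hf : PolyTime f) {D k1 : ℕ} (hD : 0 < D) :
    Poly (fun p : (List ℕ × ℕ) × (ℕ × ℕ × Bool) => step f D k1 p.1 p.2) := by
  have hm : Poly (fun p : (List ℕ × ℕ) × (ℕ × ℕ × Bool) => (p.2.1 + p.2.2.1) / 2) := by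
    fun_prop
  have ha := ask_poly hf (k1 := k1) hD (g := fun p : (List ℕ × ℕ) × (ℕ × ℕ × Bool) => p.1.1)
    (by fun_prop) hm
  unfold step
  refine Poly.ite ?_ ?_ (Poly.ite ?_ ?_ ?_)
  · exact Poly.decide_eq ha (by fun_prop)
  · fun_prop
  · exact Poly.decide_lt ha (by fun_prop)
  · fun_prop
  · fun_prop

theorem step_le (f : List Bool → List Bool) (D k1 : ℕ) (x : List ℕ × ℕ) (s : ℕ × ℕ × Bool) (B : ℕ)
    (h1 : s.1 ≤ B) (h2 : s.2.1 ≤ B) :
    (step f D k1 x s).1 ≤ B ∧ (step f D k1 x s).2.1 ≤ B := by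
  unfold step
  split_ifs
  · exact ⟨h1, h2⟩
  · exact ⟨by simp only; omega, h2⟩
  · exact ⟨h1, by simp only; omega⟩

theorem search_poly {f : List Bool → List Bool} (hf : PolyTime f) {D a0 b0 k1 : ℕ} (hD : 0 < D)
    (hab : a0 ≤ b0) : Poly (search f D a0 b0 k1) := by
  have hB : Poly (fun x : List ℕ × ℕ => x.1.sum * b0) := by fun_prop
  obtain ⟨r, hr⟩ := hB.sz_le
  have hl : Poly (fun x : List ℕ × ℕ => true :: (x.1.sum * b0).bits) :=
    NPC.Poly.cons (NPC.Poly.const true) hB.natBits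
  have hs : Poly (fun x : List ℕ × ℕ => (x.1.sum * a0, x.1.sum * b0, false)) := by fun_prop
  have h := Poly.iterLen (F := fun x s => step f D k1 x s) hl hs (step_poly hf hD)
    (Polynomial.C 4 * r + Polynomial.C 10) (by
      intro x k _
      have key : ∀ k, ((step f D k1 x)^[k] (x.1.sum * a0, x.1.sum * b0, false)).1 ≤
          x.1.sum * b0 ∧ ((step f D k1 x)^[k] (x.1.sum * a0, x.1.sum * b0, false)).2.1 ≤
          x.1.sum * b0 := by
        intro k
        induction k with
        | zero => exact ⟨Nat.mul_le_mul_left _ hab, le_rfl⟩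
        | succ k ih =>
          rw [Function.iterate_succ_apply']
          exact step_le f D k1 x _ _ ih.1 ih.2
      change sz ((step f D k1 x)^[k] (x.1.sum * a0, x.1.sum * b0, false)) ≤ _
      obtain ⟨h1, h2⟩ := key k
      generalize (step f D k1 x)^[k] (x.1.sum * a0, x.1.sum * b0, false) = s at h1 h2 ⊢
      obtain ⟨s1, s2, s3⟩ := s
      have e1 := sz_nat_mono_le h1
      have e2 := sz_nat_mono_le h2
      have e3 := hr x
      have e4 := sz_bool_le s3
      rw [sz_pair, sz_pair]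
      simp only [Polynomial.eval_add, Polynomial.eval_mul, Polynomial.eval_C]
      simp only at e1 e2 e3
      omega)
  exact Poly.snd (Poly.snd h)

theorem search_sound {f : List Bool → List Bool} {D a0 b0 k1 : ℕ} {x : List ℕ × ℕ}
    (h : search f D a0 b0 k1 x = true) : SubsetSum x := by
  by_contra hx
  have key : ∀ k, ((step f D k1 x)^[k] (x.1.sum * a0, x.1.sum * b0, false)).2.2 = false := by
    intro k
    induction k with
    | zero => rfl
    | succ k ih =>
      rw [Function.iterate_succ_apply']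
      generalize (step f D k1 x)^[k] (x.1.sum * a0, x.1.sum * b0, false) = s at ih ⊢
      unfold step
      split_ifs with h1 h2
      · exact absurd (by
          obtain ⟨t, ht1, ht2⟩ := ask_sublist f D k1 x.1 ((s.1 + s.2.1) / 2)
          exact ⟨t, ht1, by rw [ht2, h1]⟩) hx
      · exact ih
      · exact ih
  unfold search at h
  rw [key] at h
  exact absurd h (by simp)

/-- What the binary search needs to know about the answers. -/
structure Good (f : List Bool → List Bool) (D a0 b0 k1 : ℕ) (x : List ℕ × ℕ) (Es : ℝ) : Prop where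
  lo : ((x.1.sum * a0 : ℕ) : ℝ) / D ≤ Es
  hi : Es ≤ ((x.1.sum * b0 : ℕ) : ℝ) / D
  cmp : ∀ m : ℕ, x.1.sum * a0 ≤ m → m ≤ x.1.sum * b0 → ask f D k1 x.1 m ≠ x.2 →
    ¬ ((Es ≤ (m : ℝ) / D ∧ ask f D k1 x.1 m < x.2) ∨ ((m : ℝ) / D ≤ Es ∧ x.2 < ask f D k1 x.1 m) ∨
      |(m : ℝ) / D - Es| ≤ 1 / D)

/-- the invariant -/
def Inv (D a0 b0 : ℕ) (x : List ℕ × ℕ) (Es : ℝ) (k : ℕ) (s : ℕ × ℕ × Bool) : Prop :=
  s.2.2 = true ∨ (x.1.sum * a0 ≤ s.1 ∧ s.1 ≤ s.2.1 ∧ s.2.1 ≤ x.1.sum * b0 ∧ (s.1 : ℝ) / D ≤ Es ∧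
    Es ≤ (s.2.1 : ℝ) / D ∧ s.2.1 - s.1 ≤ 2 ^ k)

theorem inv_step {f : List Bool → List Bool} {D a0 b0 k1 : ℕ} {x : List ℕ × ℕ} {Es : ℝ}
    (hg : Good f D a0 b0 k1 x Es) {k : ℕ} {s : ℕ × ℕ × Bool} (h : Inv D a0 b0 x Es (k + 1) s) :
    Inv D a0 b0 x Es k (step f D k1 x s) := by
  rcases h with h | ⟨h1, h2, h3, h4, h5, h6⟩
  · left
    unfold step
    split_ifs
    · rfl
    · exact h
    · exact h
  · obtain ⟨lo, hi, b⟩ := s
    simp only at h1 h2 h3 h4 h5 h6
    unfold step
    simp only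
    have hc := hg.cmp ((lo + hi) / 2) (by omega) (by omega)
    generalize hm : (lo + hi) / 2 = m at hc ⊢
    by_cases e1 : ask f D k1 x.1 m = x.2
    · rw [if_pos e1]
      left; rfl
    · rw [if_neg e1]
      have hc' := hc e1
      rw [not_or, not_or] at hc'
      obtain ⟨c1, c2, c3⟩ := hc'
      rw [pow_succ] at h6
      by_cases e2 : ask f D k1 x.1 m < x.2
      · rw [if_pos e2]
        right
        refine ⟨?_, ?_, h3, ?_, h5, ?_⟩
        · simp only; omega
        · simp only; omega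
        · simp only
          by_contra hlt
          exact c1 ⟨(not_le.1 hlt).le, e2⟩
        · simp only; omega
      · rw [if_neg e2]
        right
        have e3 : x.2 < ask f D k1 x.1 m := by omega
        refine ⟨h1, ?_, ?_, h4, ?_, ?_⟩
        · simp only; omega
        · simp only; omega
        · simp only
          by_contra hlt
          exact c2 ⟨(not_le.1 hlt).le, e3⟩
        · simp only; omega

theorem inv_last {f : List Bool → List Bool} {D a0 b0 k1 : ℕ} {x : List ℕ × ℕ} {Es : ℝ}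
    (hg : Good f D a0 b0 k1 x Es) {s : ℕ × ℕ × Bool} (h : Inv D a0 b0 x Es 0 s) :
    (step f D k1 x s).2.2 = true := by
  rcases h with h | ⟨h1, h2, h3, h4, h5, h6⟩
  · unfold step
    split_ifs
    · rfl
    · exact h
    · exact h
  · obtain ⟨lo, hi, b⟩ := s
    simp only at h1 h2 h3 h4 h5 h6
    unfold step
    simp only
    have hc := hg.cmp ((lo + hi) / 2) (by omega) (by omega)
    rw [pow_zero] at h6
    have hm : (lo + hi) / 2 = lo := by omega
    rw [hm] at hc ⊢
    by_cases e1 : ask f D k1 x.1 lo = x.2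
    · rw [if_pos e1]
    · exfalso
      refine hc e1 (Or.inr (Or.inr ?_))
      rw [abs_sub_comm, abs_of_nonneg (by linarith)]
      have h7 : (hi : ℝ) ≤ lo + 1 := by exact_mod_cast (by omega : hi ≤ lo + 1)
      have h8 : (hi : ℝ) / D ≤ (lo : ℝ) / D + 1 / D := by
        rw [← add_div]
        exact div_le_div_of_nonneg_right h7 (Nat.cast_nonneg _)
      linarith

theorem search_complete {f : List Bool → List Bool} {D a0 b0 k1 : ℕ} {x : List ℕ × ℕ} {Es : ℝ}
    (hab : a0 ≤ b0) (hg : Good f D a0 b0 k1 x Es) :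
    search f D a0 b0 k1 x = true := by
  unfold search
  rw [List.length_cons, Function.iterate_succ_apply', Nat.size_eq_bits_len]
  apply inv_last hg
  have key : ∀ k ≤ (x.1.sum * b0).size, Inv D a0 b0 x Es ((x.1.sum * b0).size - k)
      ((step f D k1 x)^[k] (x.1.sum * a0, x.1.sum * b0, false)) := by
    intro k
    induction k with
    | zero =>
      intro _
      right
      refine ⟨le_rfl, Nat.mul_le_mul_left _ hab, le_rfl, hg.lo, hg.hi, ?_⟩
      have := Nat.lt_size_self (x.1.sum * b0)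
      simp only [Nat.sub_zero, Function.iterate_zero, id_eq]
      omega
    | succ k ih =>
      intro hk
      rw [Function.iterate_succ_apply']
      apply inv_step hg
      have := ih (by omega)
      rwa [show (x.1.sum * b0).size - (k + 1) + 1 = (x.1.sum * b0).size - k by omega]
  have := key _ le_rfl
  rwa [Nat.sub_self] at this

end Pool.Agent.Helper80K.Ft
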