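import Pool.Agent.Helper80K.Ft.Sched

/-!
# The plan for a solution of the subset sum problem
-/

namespace Pool.Agent.Helper80K.Ft

/-- `2 ^ (1 / α)` -/
noncomputable def qp (α : ℝ) : ℝ := (2 : ℝ) ^ (1 / α)

variable {α : ℝ}

theorem one_lt_qp (hα : 1 < α) : 1 < qp α :=
  Real.one_lt_rpow (by norm_num) (by have : 0 < α := by linarith
                                     positivity)

theorem qp_mul_qq (hα : 1 < α) : qp α * qq α = 2 := by
  unfold qp qq
  rw [← Real.rpow_add (by norm_num)]
  have h : 1 / α + (α - 1) / α = 1 := by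
    have : α ≠ 0 := by linarith
    field_simp
    ring
  rw [h, Real.rpow_one]

theorem qp_lt_two (hα : 1 < α) : qp α < 2 := by
  have h1 := qp_mul_qq hα
  have h2 := one_lt_qq hα
  have h3 := one_lt_qp hα
  nlinarith

theorem qp_rpow (hα : 1 < α) : qp α ^ (α - 1) = qq α := by
  unfold qp qq
  rw [← Real.rpow_mul (by norm_num)]
  congr 1
  have : α ≠ 0 := by linarith
  field_simp

/-- the pieces of one gadget -/
noncomputable def block (α c τ : ℝ) (k a : ℕ) : Bool → Plan
  | true => [(k, τ, τ + 4 * a / (qp α * c), qp α * c),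
      (k + 1, τ + 4 * a / (qp α * c), τ + 4 * a / (qp α * c) + 3 * a / c, c)]
  | false => [(k, τ, τ + a, c), (k + 1, τ + a, τ + a + 3 * a / (qp α * c), qp α * c),
      (k, τ + a + 3 * a / (qp α * c), τ + 3 * a / (qp α * c) + 4 * a / c, c)]

/-- the plan -/
noncomputable def planFrom (α c : ℝ) : ℕ → ℕ → List (ℕ × Bool) → Plan
  | _, _, [] => []
  | τ, k, x :: L => block α c τ k x.1 x.2 ++ planFrom α c (τ + 64 * x.1) (k + 2) L

/-- a plan for jobs with shifted numbers -/
structure Ok (τ k : ℕ) (J : List (ℚ × ℚ)) (P : Plan) : Prop where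
  piece : ∀ p ∈ P, k ≤ p.1 ∧ p.1 < k + J.length ∧ ((J.getD (p.1 - k) (0, 0)).1 : ℝ) ≤ p.2.1 ∧
    (τ : ℝ) ≤ p.2.1 ∧ p.2.1 < p.2.2.1 ∧ 0 < p.2.2.2
  order : P.Pairwise (fun p p' => p.2.2.1 ≤ p'.2.1)
  work : ∀ i < J.length, ((P.filter fun p => p.1 = k + i).map fun p =>
    p.2.2.2 * (p.2.2.1 - p.2.1)).sum = (J.getD i (0, 0)).2

/-- facts about one block -/
theorem block_facts (hα : 1 < α) {c : ℝ} (hc : 7 / 64 ≤ c) (hc2 : c ≤ 2) (τ k a : ℕ) (ha : 0 < a)
    (b : Bool) :
    (∀ p ∈ block α c τ k a b, (p.1 = k ∧ (τ : ℝ) ≤ p.2.1 ∨ p.1 = k + 1 ∧ (τ : ℝ) + a ≤ p.2.1) ∧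
      p.2.1 < p.2.2.1 ∧ p.2.2.1 ≤ τ + 64 * a ∧ 0 < p.2.2.2) ∧
    (block α c τ k a b).Pairwise (fun p p' => p.2.2.1 ≤ p'.2.1) ∧
    (((block α c τ k a b).filter fun p => p.1 = k).map fun p =>
      p.2.2.2 * (p.2.2.1 - p.2.1)).sum = 4 * a ∧
    (((block α c τ k a b).filter fun p => p.1 = k + 1).map fun p =>
      p.2.2.2 * (p.2.2.1 - p.2.1)).sum = 3 * a ∧
    Plan.completion (block α c τ k a b) k - τ + (Plan.completion (block α c τ k a b) (k + 1) -
      (τ + a)) = (a * (4 + 3 * qq α) + (if b then (a : ℝ) else 0) * dl α) / c -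
        (if b then (a : ℝ) else 0) ∧
    Plan.energy α (block α c τ k a b) =
      (a * (4 + 3 * qq α) + (if b then (a : ℝ) else 0) * dl α) * c ^ (α - 1) := by
  have ha' : (0 : ℝ) < a := by exact_mod_cast ha
  have hτ : (0 : ℝ) ≤ τ := Nat.cast_nonneg _
  have hc0 : 0 < c := by linarith
  have hq1 := one_lt_qp hα
  have hq2 := qp_lt_two hα
  have hqq := qp_mul_qq hα
  have hq0 : 0 < qp α := by linarith
  have h1 : (3 : ℝ) * a / (qp α * c) ≤ 3 * a / c := by
    apply div_le_div_of_nonneg_left (by positivity) hc0
    nlinarith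
  have h2 : (4 : ℝ) * a / (qp α * c) ≤ 4 * a / c := by
    apply div_le_div_of_nonneg_left (by positivity) hc0
    nlinarith
  have h3 : (7 : ℝ) * a / c ≤ 64 * a := by
    rw [div_le_iff₀ hc0]
    nlinarith
  have h4 : (7 : ℝ) * a / c = 4 * a / c + 3 * a / c := by ring
  have h5q : qp α * c ≤ 4 := by
    have := mul_le_mul hq2.le hc2 hc0.le (by norm_num : (0 : ℝ) ≤ 2)
    linarith
  have h5' : (a : ℝ) ≤ 4 * a / (qp α * c) := by
    rw [le_div_iff₀ (by positivity)]
    have := mul_le_mul_of_nonneg_left h5q ha'.le
    linarith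
  have h6 : (a : ℝ) < 4 * a / c := by
    rw [lt_div_iff₀ hc0]
    nlinarith
  have h7 : (0 : ℝ) < 3 * a / (qp α * c) := by positivity
  have h8 : (0 : ℝ) < 4 * a / (qp α * c) := by positivity
  have h9 : (0 : ℝ) < 3 * a / c := by positivity
  have hqe : (4 : ℝ) * a / (qp α * c) = 2 * a * qq α / c := by
    rw [div_eq_div_iff (by positivity) hc0.ne']
    linear_combination (-2 * a * c) * hqq
  have hqe3 : (3 : ℝ) * a / (qp α * c) = 3 / 2 * a * qq α / c := by
    rw [div_eq_div_iff (by positivity) hc0.ne']
    linear_combination (-3 / 2 * a * c) * hqq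
  have hp1 : (qp α * c) ^ α = qq α * c ^ (α - 1) * (qp α * c) := by
    have e : (qp α * c) ^ α = (qp α * c) ^ (α - 1) * (qp α * c) := by
      rw [← Real.rpow_add_one (by positivity)]
      congr 1
      ring
    rw [e, Real.mul_rpow hq0.le hc0.le, qp_rpow hα]
  have hp2 : c ^ α = c ^ (α - 1) * c := by
    rw [← Real.rpow_add_one hc0.ne']
    congr 1
    ring
  have hk : ¬ (k + 1 = k) := by omega
  have hk' : ¬ (k = k + 1) := by omega
  cases b with
  | true =>
    refine ⟨?_, ?_, ?_, ?_, ?_, ?_⟩
    · intro p hp
      simp only [block, List.mem_cons, List.not_mem_nil, or_false] at hp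
      rcases hp with rfl | rfl
      · refine ⟨Or.inl ⟨rfl, le_rfl⟩, ?_, ?_, ?_⟩
        · simp only; linarith
        · simp only; linarith
        · simp only; positivity
      · refine ⟨Or.inr ⟨rfl, ?_⟩, ?_, ?_, ?_⟩
        · simp only; linarith
        · simp only; linarith
        · simp only; linarith
        · simp only; positivity
    · simp [block]
    · simp only [block, List.filter_cons, hk, decide_true, decide_false, if_true, List.filter_nil,
        List.map_cons, List.map_nil, List.sum_cons, List.sum_nil, Bool.false_eq_true, if_false]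
      field_simp
      ring
    · simp only [block, List.filter_cons, hk', decide_true, decide_false, if_true, List.filter_nil,
        List.map_cons, List.map_nil, List.sum_cons, List.sum_nil, Bool.false_eq_true, if_false]
      field_simp
      ring
    · simp only [Plan.completion, block, List.filter_cons, hk, hk', decide_true, decide_false,
        if_true, List.filter_nil, List.map_cons, List.map_nil, List.foldr_cons, List.foldr_nil,
        Bool.false_eq_true, if_false]
      rw [max_eq_left (by linarith), max_eq_left (by linarith), hqe]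
      unfold dl
      field_simp
      ring
    · simp only [Plan.energy, block, List.map_cons, List.map_nil, List.sum_cons, List.sum_nil,
        if_true]
      rw [hp1, hp2]
      unfold dl
      field_simp
      ring
  | false =>
    refine ⟨?_, ?_, ?_, ?_, ?_, ?_⟩
    · intro p hp
      simp only [block, List.mem_cons, List.not_mem_nil, or_false] at hp
      rcases hp with rfl | rfl | rfl
      · refine ⟨Or.inl ⟨rfl, le_rfl⟩, ?_, ?_, ?_⟩
        · simp only; linarith
        · simp only; linarith
        · simp only; positivity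
      · refine ⟨Or.inr ⟨rfl, le_rfl⟩, ?_, ?_, ?_⟩
        · simp only; linarith
        · simp only; linarith
        · simp only; positivity
      · refine ⟨Or.inl ⟨rfl, ?_⟩, ?_, ?_, ?_⟩
        · simp only; linarith
        · simp only; linarith
        · simp only; linarith
        · simp only; positivity
    · simp only [block, List.pairwise_cons, List.mem_cons, List.not_mem_nil, or_false,
        forall_eq_or_imp, forall_eq, List.Pairwise.nil, and_true, false_implies, implies_true]
      refine ⟨⟨le_rfl, ?_⟩, le_rfl⟩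
      linarith
    · simp only [block, List.filter_cons, hk, decide_true, decide_false, if_true, List.filter_nil,
        List.map_cons, List.map_nil, List.sum_cons, List.sum_nil, Bool.false_eq_true, if_false]
      field_simp
      ring
    · simp only [block, List.filter_cons, hk', decide_true, decide_false, if_true, List.filter_nil,
        List.map_cons, List.map_nil, List.sum_cons, List.sum_nil, Bool.false_eq_true, if_false]
      field_simp
      ring
    · simp only [Plan.completion, block, List.filter_cons, hk, hk', decide_true, decide_false,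
        if_true, List.filter_nil, List.map_cons, List.map_nil, List.foldr_cons, List.foldr_nil,
        Bool.false_eq_true, if_false]
      rw [max_eq_left (a := (τ : ℝ) + 3 * a / (qp α * c) + 4 * a / c) (by positivity),
        max_eq_right (by linarith), max_eq_left (by positivity), hqe3]
      field_simp
      ring
    · simp only [Plan.energy, block, List.map_cons, List.map_nil, List.sum_cons, List.sum_nil,
        if_false, Bool.false_eq_true]
      rw [hp1, hp2]
      field_simp
      ring

/-- The sum of the selected items. -/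
def ssum (L : List (ℕ × Bool)) : ℕ := ((L.filter fun x => x.2).map fun x => x.1).sum

theorem plan_facts (hα : 1 < α) {c : ℝ} (hc : 7 / 64 ≤ c) (hc2 : c ≤ 2) (L : List (ℕ × Bool))
    (hL : ∀ x ∈ L, 0 < x.1) (τ k : ℕ) :
    Ok τ k (jobsFrom τ (L.map Prod.fst)) (planFrom α c τ k L) ∧
    (∑ j ∈ Finset.range (jobsFrom τ (L.map Prod.fst)).length,
      (Plan.completion (planFrom α c τ k L) (k + j) -
        (((jobsFrom τ (L.map Prod.fst)).getD j (0, 0)).1 : ℝ))) =
      MM α (L.map Prod.fst).sum (ssum L) / c - ssum L ∧
    Plan.energy α (planFrom α c τ k L) = MM α (L.map Prod.fst).sum (ssum L) * c ^ (α - 1) := by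
  induction L generalizing τ k with
  | nil =>
    refine ⟨⟨by simp [planFrom], by simp [planFrom], by simp [jobsFrom]⟩, ?_, ?_⟩
    · simp [jobsFrom, MM, ssum]
    · simp [planFrom, Plan.energy, MM, ssum]
  | cons x L ih =>
    obtain ⟨a, b⟩ := x
    have ha : 0 < a := hL _ List.mem_cons_self
    obtain ⟨ih1, ih2, ih3⟩ := ih (fun y hy => hL y (List.mem_cons_of_mem _ hy)) (τ + 64 * a) (k + 2)
    obtain ⟨b1, b2, b3, b4, b5, b6⟩ := block_facts hα hc hc2 τ k a ha b
    set J' := jobsFrom (τ + 64 * a) (L.map Prod.fst) with hJ'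
    set P' := planFrom α c (τ + 64 * a) (k + 2) L with hP'
    have hJ : jobsFrom τ (((a, b) :: L).map Prod.fst) = (((τ : ℕ) : ℚ), ((4 * a : ℕ) : ℚ)) ::
        (((τ + a : ℕ) : ℚ), ((3 * a : ℕ) : ℚ)) :: J' := rfl
    have hP : planFrom α c τ k ((a, b) :: L) = block α c τ k a b ++ P' := rfl
    -- filters
    have hf1 : (P'.filter fun p => p.1 = k) = [] := by
      rw [List.filter_eq_nil_iff]
      intro p hp
      have := (ih1.piece p hp).1
      simp only [decide_eq_true_eq]
      omega
    have hf2 : (P'.filter fun p => p.1 = k + 1) = [] := by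
      rw [List.filter_eq_nil_iff]
      intro p hp
      have := (ih1.piece p hp).1
      simp only [decide_eq_true_eq]
      omega
    have hf3 : ∀ i, ((block α c τ k a b).filter fun p => p.1 = k + (i + 2)) = [] := by
      intro i
      rw [List.filter_eq_nil_iff]
      intro p hp
      have := (b1 p hp).1
      simp only [decide_eq_true_eq]
      omega
    have hg0 : ((block α c τ k a b ++ P').filter fun p => p.1 = k) =
        (block α c τ k a b).filter fun p => p.1 = k := by
      rw [List.filter_append, hf1, List.append_nil]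
    have hg1 : ((block α c τ k a b ++ P').filter fun p => p.1 = k + 1) =
        (block α c τ k a b).filter fun p => p.1 = k + 1 := by
      rw [List.filter_append, hf2, List.append_nil]
    have hg2 : ∀ i, ((block α c τ k a b ++ P').filter fun p => p.1 = k + (i + 2)) =
        P'.filter fun p => p.1 = k + 2 + i := by
      intro i
      rw [List.filter_append, hf3, List.nil_append]
      congr 1
      funext p
      congr 1
      rw [eq_iff_iff]
      omega
    refine ⟨⟨?_, ?_, ?_⟩, ?_, ?_⟩
    · intro p hp
      rw [hP] at hp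
      rw [hJ]
      rcases List.mem_append.1 hp with hp | hp
      · obtain ⟨h1, h2, h3, h4⟩ := b1 p hp
        rcases h1 with ⟨h1, h5⟩ | ⟨h1, h5⟩
        · refine ⟨h1.ge, ?_, ?_, h5, h2, h4⟩
          · simp only [List.length_cons]; omega
          · rw [h1, Nat.sub_self, List.getD_cons_zero]
            push_cast
            exact h5
        · refine ⟨by omega, ?_, ?_, ?_, h2, h4⟩
          · simp only [List.length_cons]; omega
          · rw [h1, Nat.add_sub_cancel_left, List.getD_cons_succ, List.getD_cons_zero]
            push_cast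
            exact h5
          · have : (0 : ℝ) ≤ a := Nat.cast_nonneg _
            linarith
      · obtain ⟨h1, h2, h3, h4, h5, h6⟩ := ih1.piece p hp
        refine ⟨by omega, ?_, ?_, ?_, h5, h6⟩
        · simp only [List.length_cons]; omega
        · have e : p.1 - k = (p.1 - (k + 2)) + 1 + 1 := by omega
          rw [e, List.getD_cons_succ, List.getD_cons_succ]
          exact h3
        · push_cast at h4
          have : (0 : ℝ) ≤ a := Nat.cast_nonneg _
          linarith
    · rw [hP, List.pairwise_append]
      refine ⟨b2, ih1.order, ?_⟩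
      intro p hp p' hp'
      have h1 := (b1 p hp).2.2.1
      have h2 := (ih1.piece p' hp').2.2.2.1
      push_cast at h2
      exact h1.trans h2
    · intro i hi
      rw [hP]
      rw [hJ] at hi ⊢
      match i with
      | 0 =>
        simp only [add_zero, List.getD_cons_zero]
        rw [hg0, b3]
        push_cast
        ring
      | 1 =>
        simp only [List.getD_cons_succ, List.getD_cons_zero]
        rw [hg1, b4]
        push_cast
        ring
      | i + 2 =>
        simp only [List.getD_cons_succ]
        rw [hg2]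
        exact ih1.work i (by simpa using hi)
    · rw [hP, hJ]
      simp only [List.length_cons]
      rw [Finset.sum_range_succ', Finset.sum_range_succ']
      simp only [List.getD_cons_succ, List.getD_cons_zero, add_zero, zero_add]
      have e1 : ∀ j, Plan.completion (block α c τ k a b ++ P') (k + (j + 1 + 1)) =
          Plan.completion P' (k + 2 + j) := by
        intro j
        unfold Plan.completion
        rw [show j + 1 + 1 = j + 2 from rfl, hg2]
      have e2 : Plan.completion (block α c τ k a b ++ P') (k + 1) =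
          Plan.completion (block α c τ k a b) (k + 1) := by
        unfold Plan.completion
        rw [hg1]
      have e3 : Plan.completion (block α c τ k a b ++ P') k =
          Plan.completion (block α c τ k a b) k := by
        unfold Plan.completion
        rw [hg0]
      simp only [e1, e2, e3]
      rw [ih2]
      have e4 : (MM α ((((a, b) :: L).map Prod.fst).sum : ℕ) (ssum ((a, b) :: L) : ℕ)) =
          (a * (4 + 3 * qq α) + (if b then (a : ℝ) else 0) * dl α) +
          MM α ((L.map Prod.fst).sum : ℕ) (ssum L : ℕ) := by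
        unfold MM ssum
        cases b <;> simp <;> ring
      have e5 : ((ssum ((a, b) :: L) : ℕ) : ℝ) = (if b then (a : ℝ) else 0) + (ssum L : ℕ) := by
        unfold ssum
        cases b <;> simp
      rw [e4, e5]
      push_cast
      rw [add_div]
      linarith
    · rw [hP]
      have e0 : Plan.energy α (block α c τ k a b ++ P') =
          Plan.energy α (block α c τ k a b) + Plan.energy α P' := by
        unfold Plan.energy
        rw [List.map_append, List.sum_append]
      have e4 : (MM α ((((a, b) :: L).map Prod.fst).sum : ℕ) (ssum ((a, b) :: L) : ℕ)) =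
          (a * (4 + 3 * qq α) + (if b then (a : ℝ) else 0) * dl α) +
          MM α ((L.map Prod.fst).sum : ℕ) (ssum L : ℕ) := by
        unfold MM ssum
        cases b <;> simp <;> ring
      rw [e0, b6, ih3, e4]
      ring

theorem exists_marks {s l : List ℕ} (h : s.Sublist l) :
    ∃ L : List (ℕ × Bool), L.map Prod.fst = l ∧ ssum L = s.sum := by
  induction h with
  | slnil => exact ⟨[], rfl, rfl⟩
  | cons a _ ih =>
    obtain ⟨L, h1, h2⟩ := ih
    refine ⟨(a, false) :: L, by simp [h1], ?_⟩
    unfold ssum at h2 ⊢
    simpa using h2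
  | cons_cons a _ ih =>
    obtain ⟨L, h1, h2⟩ := ih
    refine ⟨(a, true) :: L, by simp [h1], ?_⟩
    unfold ssum at h2 ⊢
    simpa using h2

/-- **The upper bound.** -/
theorem upper (hα : 1 < α) {c : ℝ} (hc : 7 / 64 ≤ c) (hc2 : c ≤ 2) {s l : List ℕ}
    (hl : ∀ a ∈ l, 0 < a) (hne : l ≠ []) (hs : s.Sublist l) :
    ∃ S : Schedule (jobsFrom 0 l).length, IsSchedule (jobsFrom 0 l) S ∧
      S.energy α = ENNReal.ofReal (MM α l.sum s.sum * c ^ (α - 1)) ∧
      S.flow (jobsFrom 0 l) = GG α l.sum s.sum (MM α l.sum s.sum * c ^ (α - 1)) := by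
  obtain ⟨L, hL1, hL2⟩ := exists_marks hs
  have hL : ∀ x ∈ L, 0 < x.1 := by
    intro x hx
    apply hl
    rw [← hL1]
    exact List.mem_map.2 ⟨x, hx, rfl⟩
  obtain ⟨h1, h2, h3⟩ := plan_facts hα hc hc2 L hL 0 0
  rw [hL1, hL2] at h2 h3
  rw [hL1] at h1
  have hP : IsPlan (jobsFrom 0 l) (planFrom α c 0 0 L) := by
    refine ⟨fun p hp => ?_, h1.order, fun i hi => ?_⟩
    · obtain ⟨_, h5, h6, _, h7, h8⟩ := h1.piece p hp
      rw [zero_add] at h5
      rw [Nat.sub_zero] at h6
      exact ⟨h5, h6, h7, h8⟩
    · have := h1.work i hi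
      simp only [zero_add] at this
      exact this
  have hJ : ∀ j ∈ jobsFrom 0 l, 0 ≤ j.1 ∧ 0 < j.2 := by
    have key : ∀ (τ : ℕ) (l : List ℕ), (∀ a ∈ l, 0 < a) →
        ∀ j ∈ jobsFrom τ l, 0 ≤ j.1 ∧ 0 < j.2 := by
      intro τ l
      induction l generalizing τ with
      | nil => simp [jobsFrom]
      | cons a l ih =>
        intro hl j hj
        have ha : 0 < a := hl a List.mem_cons_self
        have ha' : (0 : ℚ) < a := by exact_mod_cast ha
        simp only [jobsFrom, List.mem_cons] at hj
        rcases hj with rfl | rfl | hj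
        · exact ⟨by positivity, by push_cast; positivity⟩
        · exact ⟨by positivity, by push_cast; positivity⟩
        · exact ih _ (fun x hx => hl x (List.mem_cons_of_mem _ hx)) j hj
    exact key 0 l hl
  have hA : (0 : ℝ) < (l.sum : ℕ) := by
    obtain ⟨a, ha⟩ := List.exists_mem_of_ne_nil l hne
    have h1 := List.single_le_sum (fun _ _ => Nat.zero_le _) a ha
    have h2 := hl a ha
    exact_mod_cast lt_of_lt_of_le h2 h1
  refine ⟨toSchedule _ _, isSchedule hP hJ, ?_, ?_⟩
  · rw [energy_eq (by linarith) hP hJ, h3]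
  · rw [flow_eq hP hJ, GG_eq hα hA (Nat.cast_nonneg _) (Nat.cast_nonneg _) (by linarith)]
    simp only [zero_add] at h2
    unfold Plan.flow
    rw [h2]
    simp

end Pool.Agent.Helper80K.Ft
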